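import Pool.Agent.Lib.MP_181146_gt.HT.SpecT
import Pool.Agent.Lib.MP_181146_gt.HE.DlG
import Pool.Agent.Lib.MP_181146_gt.HE.AwD
import Pool.Agent.Lib.MP_181146_gt.HE.AwG

/-!
# Project HT, module `RelV`: the Clifford relation with visible operators (variant of `HP/Rel`)
-/

set_option autoImplicit false

namespace HTx

open scoped TensorProduct
open HEp HPx

section

variable {k : Type} [CommRing k] {K : SS}

private lemma rel_od {n : ℕ} (hn : Odd n) {c : Ch k K} (hc : c ∈ gr k K n) :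
    od k K c = c := by
  have hle : gr k K n ≤ LinearMap.ker (od k K - LinearMap.id) := by
    rw [gr, Finsupp.supported_eq_span_single, Submodule.span_le]
    rintro _ ⟨⟨m', σ⟩, hσ, rfl⟩
    have hσ' : m' = n := hσ
    subst hσ'
    have h1 : od k K (sx k σ) = sx k σ := by rw [od_sx, if_pos hn]
    change od k K (sx k σ) - sx k σ = 0
    rw [h1, sub_self]
  have := hle hc
  rw [LinearMap.mem_ker, LinearMap.sub_apply, LinearMap.id_apply] at this
  exact sub_eq_zero.1 this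

private lemma rel_lx_add {V : Type} [AddCommGroup V] [Module k V] (x x' : V →ₗ[k] k) :
    lx (x + x') = lx x + lx x' := by
  refine TensorProduct.ext' fun a b => ?_
  rw [LinearMap.add_apply, lx_tmul, lx_tmul, lx_tmul, LinearMap.add_apply, add_smul]

private lemma rel_lx_zero {V : Type} [AddCommGroup V] [Module k V] :
    lx (0 : V →ₗ[k] k) = 0 := by
  refine TensorProduct.ext' fun a b => ?_
  rw [lx_tmul, LinearMap.zero_apply, LinearMap.zero_apply, zero_smul]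

private lemma rel_cap_add (x x' : Ch k K →ₗ[k] k) (y : Ch k K) :
    cap (x + x') y = cap x y + cap x' y := by
  unfold cap
  rw [rel_lx_add]
  rfl

private lemma rel_cap_zero (y : Ch k K) : cap (0 : Ch k K →ₗ[k] k) y = 0 := by
  unfold cap
  rw [rel_lx_zero]
  rfl

private lemma rel_Tw_add (e : ∀ p q : ℕ, Ch ℤ ((De p).prod (De q))) (m : SSHom (K.prod K) K)
    (x : Ch k K →ₗ[k] k) (z z' : Ch k K ⊗[k] Ch k K) (y : Ch k K) :
    Tw e m x (z + z') y = Tw e m x z y + Tw e m x z' y := by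
  rw [Tw_apply, Tw_apply, Tw_apply, TensorProduct.add_tmul]
  simp only [map_add]

end

/-- **RelV** (from HPx.MuA, CapD, T1, TwD, Tw3, Tw4, TwG, Vtx, UnB).  The Clifford relation for
`a y = mu (c ⊗ y)` and `b = cap x`, with the homotopy `κ` (of degree `1`, natural for the maps `α`). -/
def S_RelV : Prop :=
  ∀ (e : ∀ p q : ℕ, Ch ℤ ((De p).prod (De q))) (he : EZ e) (k : Type) [CommRing k] (E : Type)
    [TopologicalSpace E] [PathConnectedSpace E] (v : E) (m : C(E × E, E))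
    (hA : ContinuousMap.Homotopic (ContinuousMap.id E)
      (m.comp (ContinuousMap.prodMk (ContinuousMap.id E) (ContinuousMap.const E v))))
    (B : C(unitInterval × E, E)) (hB0 : ∀ x, B (0, x) = x) (hB1 : ∀ x, B (1, x) = m (v, x))
    (n : ℕ) (hn : Odd n) (c : Ch k (Sing E)) (hc : c ∈ gr k (Sing E) n)
    (hbc : bd k (Sing E) c = 0) (x : Ch k (Sing E) →ₗ[k] k) (hx : Sup n x)
    (hxb : ∀ y, x (bd k (Sing E) y) = 0) (hxc : x c = 1)
    (w : Ch k (Sing E) ⊗[k] Ch k (Sing E))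
    (hw : dl k (Sing E) c = c ⊗ₜ sx k (vtx v) + sx k (vtx v) ⊗ₜ c +
      ((chDG k (Sing E)).tens (chDG k (Sing E))).d w),
    (∀ y, mu k e (SingMul m) (c ⊗ₜ bd k (Sing E) y) =
      - bd k (Sing E) (mu k e (SingMul m) (c ⊗ₜ y))) ∧
    (∀ y, cap x (bd k (Sing E) y) = - bd k (Sing E) (cap x y)) ∧
    (∀ i, ∀ y ∈ gr k (Sing E) i, mu k e (SingMul m) (c ⊗ₜ y) ∈ gr k (Sing E) (i + n)) ∧
    (∀ i, ∀ y ∈ gr k (Sing E) (i + n), cap x y ∈ gr k (Sing E) i) ∧
    (∀ i, i < n → ∀ y ∈ gr k (Sing E) i, cap x y = 0) ∧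
    (∀ α : C(E, E), (∀ x y, m (x, α y) = α (m (x, y))) →
      ∀ y, mu k e (SingMul m) (c ⊗ₜ cmap k (SingMap α) y) =
        cmap k (SingMap α) (mu k e (SingMul m) (c ⊗ₜ y))) ∧
    ∃ κ : Ch k (Sing E) →ₗ[k] Ch k (Sing E),
      (∀ y, mu k e (SingMul m) (c ⊗ₜ cap x y) + cap x (mu k e (SingMul m) (c ⊗ₜ y)) =
        y + (bd k (Sing E) (κ y) + κ (bd k (Sing E) y))) ∧
      ∀ α : C(E, E), (∀ x y, m (x, α y) = α (m (x, y))) →
        (∀ s x, B (s, α x) = α (B (s, x))) → (∀ y, x (cmap k (SingMap α) y) = x y) →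
        ∀ y, κ (cmap k (SingMap α) y) = cmap k (SingMap α) (κ y)

/-- **RelV.** -/
theorem sRelV (hMuA : S_MuA) (hCapD : S_CapD) (hT1 : S_T1) (hTwD : S_TwD) (hTw3 : S_Tw3)
    (hTw4 : S_Tw4) (hTwG : S_TwG) (hVtx : S_Vtx) (hUnB : S_UnB) : S_RelV := by
  intro e he k _ E _ _ v m hA B hB0 hB1 n hn c hc hbc x hx hxb hxc w hw
  obtain ⟨ma1, ma2, ma3⟩ := hMuA e he k (Sing E) (SingMul m) n hn c hc hbc
  obtain ⟨cx1, cx2, cx3, cx4⟩ := hCapD k (Sing E) n x hx
  obtain ⟨κ1, k1, k2⟩ := hT1 e he k (Sing E) (SingMul m) n hn c hc hbc x hx hxb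
  obtain ⟨β, b1, b2, b3⟩ := hUnB e he k E v m B hB0 hB1
  have hvx : ∀ σ : (Sing E).K 0, x (mu k e (SingMul m) (c ⊗ₜ sx k σ)) = 1 := fun σ => by
    rw [hVtx e he k E v m hA c hbc x hxb σ, hxc]
  have hn1 : 1 ≤ n := hn.pos
  have hξ : Sup (n - 1) (x ∘ₗ β) := by
    intro i hi y hy
    exact hx (i + 1) (by omega) _ (b2 i y hy)
  obtain ⟨cξ1, -, -, cξ4⟩ := hCapD k (Sing E) (n - 1) (x ∘ₗ β) hξ
  have hp1 : (-1 : k) ^ (n - 1) = 1 := by
    refine Even.neg_one_pow ?_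
    obtain ⟨r, hr⟩ := hn
    exact ⟨r, by omega⟩
  have hp2 : (-1 : k) ^ n = -1 := hn.neg_one_pow
  obtain ⟨A, hA'⟩ : ∃ A : Ch k (Sing E) →ₗ[k] Ch k (Sing E),
      ∀ y, A y = mu k e (SingMul m) (c ⊗ₜ y) :=
    ⟨mu k e (SingMul m) ∘ₗ TensorProduct.mk k (Ch k (Sing E)) (Ch k (Sing E)) c, fun _ => rfl⟩
  -- the even part of `w`
  obtain ⟨hcm, -, -, -⟩ := sDlG sAwD sAwG k (Sing E)
  obtain ⟨w₀, hw₀, hPw⟩ : ∃ w₀ : Ch k (Sing E) ⊗[k] Ch k (Sing E),
      ((chDG k (Sing E)).tens (chDG k (Sing E))).d w₀ =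
        ((chDG k (Sing E)).tens (chDG k (Sing E))).d w ∧
      ((chDG k (Sing E)).tens (chDG k (Sing E))).P w₀ = 0 := by
    refine ⟨w - ((chDG k (Sing E)).tens (chDG k (Sing E))).P w, ?_, ?_⟩
    · have hodc : od k (Sing E) c = c := rel_od hn hc
      have hodv : od k (Sing E) (sx k (vtx v)) = 0 := by
        rw [od_sx, if_neg (by decide)]
      have e1 : ((chDG k (Sing E)).tens (chDG k (Sing E))).P (dl k (Sing E) c) =
          dl k (Sing E) c := by
        have := hcm.P c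
        rw [show (chDG k (Sing E)).P c = c from hodc] at this
        exact this.symm
      have e2 : ((chDG k (Sing E)).tens (chDG k (Sing E))).P (c ⊗ₜ sx k (vtx v)) =
          c ⊗ₜ sx k (vtx v) := by
        refine (DG.tens_P (chDG k (Sing E)) (chDG k (Sing E)) c (sx k (vtx v))).trans ?_
        change od k (Sing E) c ⊗ₜ[k] sx k (vtx v) + c ⊗ₜ[k] od k (Sing E) (sx k (vtx v)) -
          (2 : k) • (od k (Sing E) c ⊗ₜ[k] od k (Sing E) (sx k (vtx v))) = _
        rw [hodc, hodv, TensorProduct.tmul_zero, smul_zero, add_zero]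
        exact sub_zero (c ⊗ₜ[k] sx k (vtx v) : Ch k (Sing E) ⊗[k] Ch k (Sing E))
      have e3 : ((chDG k (Sing E)).tens (chDG k (Sing E))).P (sx k (vtx v) ⊗ₜ c) =
          sx k (vtx v) ⊗ₜ c := by
        refine (DG.tens_P (chDG k (Sing E)) (chDG k (Sing E)) (sx k (vtx v)) c).trans ?_
        change od k (Sing E) (sx k (vtx v)) ⊗ₜ[k] c + sx k (vtx v) ⊗ₜ[k] od k (Sing E) c -
          (2 : k) • (od k (Sing E) (sx k (vtx v)) ⊗ₜ[k] od k (Sing E) c) = _
        rw [hodc, hodv, TensorProduct.zero_tmul, smul_zero, zero_add]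
        exact sub_zero (sx k (vtx v) ⊗ₜ[k] c : Ch k (Sing E) ⊗[k] Ch k (Sing E))
      have e4 : ((chDG k (Sing E)).tens (chDG k (Sing E))).d w = dl k (Sing E) c -
          c ⊗ₜ sx k (vtx v) - sx k (vtx v) ⊗ₜ c := by
        rw [hw]
        abel
      rw [← DG.Pd, e4, map_sub, map_sub, e1, e2, e3]
    · rw [map_sub, DG.PP, sub_self]
  rw [← hw₀] at hw
  -- the cochain `x ∘ (v ·)`
  have hx' : x ∘ₗ mu k e (SingMul m) ∘ₗ TensorProduct.mk k (Ch k (Sing E)) (Ch k (Sing E))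
      (sx k (vtx v)) = x + (x ∘ₗ β) ∘ₗ bd k (Sing E) := by
    refine LinearMap.ext fun y => ?_
    change x (mu k e (SingMul m) (sx k (vtx v) ⊗ₜ y)) = x y + x (β (bd k (Sing E) y))
    rw [b1, map_add, map_add, hxb, zero_add]
  have hAd : ∀ y, A (bd k (Sing E) y) = - bd k (Sing E) (A y) := fun y => by
    rw [hA', hA', ma1]
  have hcap : ∀ y, A (cap (x ∘ₗ mu k e (SingMul m) ∘ₗ
      TensorProduct.mk k (Ch k (Sing E)) (Ch k (Sing E)) (sx k (vtx v))) y) =
      A (cap x y) + A (cap (x ∘ₗ β) (bd k (Sing E) y)) +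
        bd k (Sing E) (A (cap (x ∘ₗ β) y)) := by
    intro y
    have h1 := cξ1 y
    rw [hp1, one_smul] at h1
    rw [hx', rel_cap_add, map_add, h1, map_add, hAd]
    abel
  have hxbd : ∀ y, cap x (bd k (Sing E) y) = - bd k (Sing E) (cap x y) := by
    intro y
    have h0 : x ∘ₗ bd k (Sing E) = 0 := LinearMap.ext hxb
    rw [cx1 y, h0, rel_cap_zero, hp2, zero_add, neg_smul, one_smul]
  have hrel : ∀ y, cap x (A y) = y + (bd k (Sing E) (β y) + β (bd k (Sing E) y)) -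
      (A (cap x y) + A (cap (x ∘ₗ β) (bd k (Sing E) y)) + bd k (Sing E) (A (cap (x ∘ₗ β) y))) +
      (- bd k (Sing E) (Tw e (SingMul m) x w₀ y) - Tw e (SingMul m) x w₀ (bd k (Sing E) y)) -
      (bd k (Sing E) (κ1 y) + κ1 (bd k (Sing E) y)) := by
    intro y
    rw [hA', k1, hw, rel_Tw_add, rel_Tw_add,
      hTw3 e he k (Sing E) (SingMul m) n c hc x hx (vtx v) hvx y,
      hTw4 e he k (Sing E) (SingMul m) n hn c hc x hx (vtx v) y,
      hTwD e he k (Sing E) (SingMul m) n hn x hx hxb w₀ hPw y, b1, ← hA', hcap]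
    abel
  refine ⟨ma1, hxbd, ma2, cx2, cx3, ?_, β - A ∘ₗ cap (x ∘ₗ β) - Tw e (SingMul m) x w₀ - κ1,
    ?_, ?_⟩
  · intro α hα y
    have hCm : Cm (Sing E) (SingMul m) (SingMap α) := by
      intro j a b
      refine ContinuousMap.ext fun t => ?_
      exact hα (DFunLike.coe (F := C(Pool.Agent.Lib.SingHom.Sx j, E)) a t)
        (DFunLike.coe (F := C(Pool.Agent.Lib.SingHom.Sx j, E)) b t)
    exact ma3 _ hCm y
  · intro y
    rw [← hA', ← hA', hrel y]
    simp only [LinearMap.sub_apply, LinearMap.comp_apply, map_sub]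
    abel
  · intro α hα hBα hxα
    have hCm : Cm (Sing E) (SingMul m) (SingMap α) := by
      intro j a b
      refine ContinuousMap.ext fun t => ?_
      exact hα (DFunLike.coe (F := C(Pool.Agent.Lib.SingHom.Sx j, E)) a t)
        (DFunLike.coe (F := C(Pool.Agent.Lib.SingHom.Sx j, E)) b t)
    have gA : ∀ y, A (cmap k (SingMap α) y) = cmap k (SingMap α) (A y) := fun y => by
      rw [hA', hA', ma3 _ hCm]
    have gβ := b3 α hBα
    have gξ : ∀ y, (x ∘ₗ β) (cmap k (SingMap α) y) = (x ∘ₗ β) y := by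
      intro y
      rw [LinearMap.comp_apply, gβ, hxα]
      rfl
    intro y
    have g1 := cξ4 _ gξ y
    have g2 := hTwG e k (Sing E) (SingMul m) x (SingMap α) hCm hxα w₀ y
    have g3 := k2 _ hCm hxα y
    simp only [LinearMap.sub_apply, map_sub]
    rw [LinearMap.comp_apply, LinearMap.comp_apply, gβ, g1, gA, g2, g3]

end HTx
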