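import Pool.Agent.Lib.MP_181146_gt.HP.SpecR

/-!
# Project HT (part T of the theorem for all finite fundamental groups): interface and assembly

`Mlt G E`: the multiplication on the covering space with equivariant homotopies; `LT X E act`: the link
between the complex `X` and the singular chains with equivariant homotopies on both sides; `Cl E v n`:
a cocycle and a cycle of degree `n` with value `1` and the primitivity of the cycle.
`S_CoreX`: the statement proved by the parts B, H, X, R, V, E.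
-/

set_option linter.unusedVariables false
set_option autoImplicit false

namespace HTx

open scoped TensorProduct
open HEp HPx

/-- The multiplication `m` on the covering space `E` with the action of `G`; `A`, `B` are homotopies
from the identity to `m (·, v)` and `m (v, ·)`. -/
structure Mlt (G : Type) [CommGroup G] (E : Type) [TopologicalSpace E] where
  act : G → C(E, E)
  act_one : act 1 = ContinuousMap.id E
  act_mul : ∀ a b, act (a * b) = (act a).comp (act b)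
  v : E
  m : C(E × E, E)
  A : C(unitInterval × E, E)
  B : C(unitInterval × E, E)
  A0 : ∀ x, A (0, x) = x
  A1 : ∀ x, A (1, x) = m (x, v)
  B0 : ∀ x, B (0, x) = x
  B1 : ∀ x, B (1, x) = m (v, x)
  Ag : ∀ (g : G) (s : unitInterval) (x : E), A (s, act g x) = act g (A (s, x))
  Bg : ∀ (g : G) (s : unitInterval) (x : E), B (s, act g x) = act g (B (s, x))
  m1 : ∀ (g : G) (x y : E), m (act g x, y) = act g (m (x, y))
  m2 : ∀ (g : G) (x y : E), m (x, act g y) = act g (m (x, y))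

/-- Equivariant chain maps `f`, `f'` between the complex `X` and the singular chains of `E`, with
equivariant homotopies `h : f' f ~ 1` (on `X`) and `t : f f' ~ 1` (on the singular chains). -/
structure LT {G : Type} [CommGroup G] (X : AX G) (E : Type) [TopologicalSpace E]
    (act : G → C(E, E)) extends Lk X E act where
  hg : ∀ (g : G) i (x : X.P i), h i (MonoidAlgebra.of ℤ G g • x) = MonoidAlgebra.of ℤ G g • h i x
  t : Ch ℤ (Sing E) →+ Ch ℤ (Sing E)
  t_gr : ∀ i, ∀ c ∈ gr ℤ (Sing E) i, t c ∈ gr ℤ (Sing E) (i + 1)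
  ht : ∀ i, ∀ c ∈ gr ℤ (Sing E) i,
    f i (f' i c) - c = bd ℤ (Sing E) (t c) + t (bd ℤ (Sing E) c)
  tg : ∀ (g : G) c, t (cmap ℤ (SingMap (act g)) c) = cmap ℤ (SingMap (act g)) (t c)

/-- A cocycle `x` and a cycle `c` of degree `n` on the singular chains with `x c = 1`; `c` is
primitive. -/
structure Cl (E : Type) [TopologicalSpace E] (v : E) (n : ℕ) where
  x : Ch ℤ (Sing E) →ₗ[ℤ] ℤ
  c : Ch ℤ (Sing E)
  x_sup : Sup n x
  x_bd : ∀ y, x (bd ℤ (Sing E) y) = 0
  c_gr : c ∈ gr ℤ (Sing E) n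
  c_bd : bd ℤ (Sing E) c = 0
  x_c : x c = 1
  w : Ch ℤ (Sing E) ⊗[ℤ] Ch ℤ (Sing E)
  hw : dl ℤ (Sing E) c = c ⊗ₜ sx ℤ (vtx v) + sx ℤ (vtx v) ⊗ₜ c + ((cz (Sing E)).tens (cz (Sing E))).d w

/-- **CoreX** (from all other parts).  `G` is a finite abelian group, not cyclic of prime power order (and
not trivial): so either two primes divide the order, or `G` contains a subgroup `(ℤ/q)²`. -/
def S_CoreX : Prop :=
  ∀ (e : ∀ p q : ℕ, Ch ℤ ((De p).prod (De q))) (he : EZ e) (G : Type) [CommGroup G] [Finite G]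
    (hG : ∀ q : ℕ, q.Prime → IsPGroup q G → ¬ IsCyclic G) (E : Type) [TopologicalSpace E]
    [PathConnectedSpace E] (D : Mlt G E)
    (X : AX G) (K : ℕ) (hK : ∀ i, 2 * K ≤ i → Subsingleton (X.P i)) (hN : X.PN)
    (Λ : LT X E D.act) (n : ℕ) (hn : Odd n) (hn1 : 1 < n) (hX : X.Ac n) (hE : AcE E (vtx D.v) n)
    (Q : Cl E D.v n),
    ∃ c : ℕ, Nonempty (((∀ j : Fin K, X.P (2 * j)) × (Fin c → ZG G)) ≃ₗ[ZG G]
      ((∀ j : Fin K, X.P (2 * j + 1)) × (Fin c → ZG G)))

/-- **LTEx.** The augmentation and the link with the singular chains (same proof as `HP/LkEx.lean`;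
`t` on `gr i` is `inc (i + 1) (ci (i + 1) (b i (cm i (prj i c))))`: define it by
`Finsupp.lsum`/`Finsupp.linearCombination` on simplices, compare `t` in `HP/TTex.lean`). -/
def S_LTEx : Prop :=
  ∀ (E : Type) [TopologicalSpace E] (G : Type) [CommGroup G] (act : G → C(E, E)) (M : ℕ → Type)
    [∀ i, AddCommGroup (M i)] [∀ i, Module (ZG G) (M i)] [∀ i, Module.Finite (ZG G) (M i)]
    [∀ i, Module.Projective (ZG G) (M i)] (d : ∀ i : ℕ, M (i + 1) →ₗ[ZG G] M i)
    (dd : ∀ i x, d i (d (i + 1) x) = 0)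
    (u : ∀ i, M i →+ (HSp.SC E).X i) (u' : ∀ i, (HSp.SC E).X i →+ M i)
    (a : ∀ i, M i →+ M (i + 1)) (b : ∀ i, (HSp.SC E).X i →+ (HSp.SC E).X (i + 1))
    (ud : ∀ i x, u i (d i x) = ((HSp.SC E).d (i + 1) i).hom (u (i + 1) x))
    (u'd : ∀ i x, u' i (((HSp.SC E).d (i + 1) i).hom x) = d i (u' (i + 1) x))
    (ha0 : ∀ x, u' 0 (u 0 x) - x = d 0 (a 0 x))
    (ha : ∀ i x, u' (i + 1) (u (i + 1) x) - x = d (i + 1) (a (i + 1) x) + a i (d i x))
    (hb0 : ∀ x, u 0 (u' 0 x) - x = ((HSp.SC E).d 1 0).hom (b 0 x))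
    (hb : ∀ i x, u (i + 1) (u' (i + 1) x) - x = ((HSp.SC E).d (i + 2) (i + 1)).hom (b (i + 1) x) +
      b i (((HSp.SC E).d (i + 1) i).hom x))
    (ug : ∀ (g : G) i x, u i (MonoidAlgebra.of ℤ G g • x) =
      ((HSp.SCmap (act g)).f i).hom (u i x))
    (u'g : ∀ (g : G) i x, u' i (((HSp.SCmap (act g)).f i).hom x) =
      MonoidAlgebra.of ℤ G g • u' i x)
    (ag : ∀ (g : G) i x, a i (MonoidAlgebra.of ℤ G g • x) = MonoidAlgebra.of ℤ G g • a i x)
    (bg : ∀ (g : G) i x, b i (((HSp.SCmap (act g)).f i).hom x) =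
      ((HSp.SCmap (act g)).f (i + 1)).hom (b i x)),
    ∃ (ε : M 0 →+ ℤ) (εg : ∀ (g : G) (x : M 0), ε (MonoidAlgebra.of ℤ G g • x) = ε x)
      (εd : ∀ x, ε (d 0 x) = 0), Nonempty (LT (mkAX M d dd ε εg εd) E act)

/-- **ClEx** (from Bas, Prm).  Existence of the Clifford data.  Proof as in `HP/Core.lean`: `y = u' z` is a
cycle of infinite order, Bas with `s = 1` gives a cocycle `u` and a cycle `y'` with `u y' = 1`;
`x = u ∘ f' n`, `c = f n y'`; `w` from Prm. -/
def S_ClEx : Prop :=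
  ∀ (G : Type) [CommGroup G] [Finite G] (X : AX G) (E : Type) [TopologicalSpace E]
    (act : G → C(E, E)) (Λ : LT X E act) (v : E) (n : ℕ) (hE : AcE E (vtx v) (n + 1))
    (z : Ch ℤ (Sing E)) (hzg : z ∈ gr ℤ (Sing E) (n + 1)) (hz : bd ℤ (Sing E) z = 0)
    (hind : ∀ (c : ℤ) (w : Ch ℤ (Sing E)), bd ℤ (Sing E) w = c • z → c = 0), Nonempty (Cl E v (n + 1))

/-- **GrZ.** Transfer of a cycle of infinite order from Mathlib's singular chains (`SingHom.Compare`;
compare `HP/AcEx.lean`). -/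
def S_GrZ : Prop :=
  ∀ (E : Type) [TopologicalSpace E] (n : ℕ) (z : HSp.SI E (n + 1)) (hz : HSp.bdS E n z = 0)
    (hind : ∀ c : ℤ, (∃ w, HSp.bdS E (n + 1) w = c • z) → c = 0),
    ∃ z' ∈ gr ℤ (Sing E) (n + 1), bd ℤ (Sing E) z' = 0 ∧
      ∀ (c : ℤ) (w : Ch ℤ (Sing E)), bd ℤ (Sing E) w = c • z' → c = 0

/-- **Evn** (from HEp.NabD, HEp.NabG, HEp.DlG, HEp.Mid, HEp.TCM, HPx.Hpn, HPx.CapD, HPx.Tw3, HPx.Vtx,
HPx.UnB; proved in `HT/Ev.lean`, `HT/EvR.lean`).  The degree `n` is odd: for even `n` one has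
`X Ξ - Ξ X = 1` on the homology, so that no multiple of `c^k = Ξ^k 1` is a boundary (`X^k c^k = k!`). -/
def S_Evn : Prop :=
  ∀ (e : ∀ p q : ℕ, Ch ℤ ((De p).prod (De q))) (he : EZ e) (G : Type) [CommGroup G]
    (E : Type) [TopologicalSpace E] [PathConnectedSpace E] (D : Mlt G E)
    (X : AX G) (K : ℕ) (hK : ∀ i, 2 * K ≤ i → Subsingleton (X.P i))
    (Λ : LT X E D.act) (n : ℕ) (hn0 : 0 < n) (Q : Cl E D.v n), Odd n

/-- **TopX** (from CoreX, Evn, LTEx, ClEx, GrZ, HPx.LkAc, HPx.AcEx, HPx.LfE, HEp.Lpc, HEp.DCo, HEp.PNx,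
HEp.EZex, HSp.TN).  The group of deck transformations is not cyclic of prime power order.
Proof as in `HP/PStop.lean`, `HP/Core.lean`. -/
def S_TopX : Prop :=
  ∀ (X E : Type) [TopologicalSpace X] [TopologicalSpace E] [PathConnectedSpace X]
    [LocallyPathConnectedSpace X] [SimplyConnectedSpace E] (p : E → X) (hp : IsCoveringMap p)
    (e : X) (μ : C(X × X, X)) (hμ : HSp.IsHMul e μ) (hfin : Finite (HSp.Deck p))
    (hG : ∀ q : ℕ, q.Prime → IsPGroup q (HSp.Deck p) → ¬ IsCyclic (HSp.Deck p))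
    (C : HSp.Cpl (HSp.GR (HSp.Deck p))) (K : ℕ) (hC : C.IsPerf K)
    (heq : HSp.EqvSing (HSp.Deck p) C) (n : ℕ)
    (hE : ∀ i, i < n + 1 → ∀ x : HSp.SI E (i + 1), HSp.bdS E i x = 0 →
      ∃ y, HSp.bdS E (i + 1) y = x)
    (z : HSp.SI E (n + 2)) (hz : HSp.bdS E (n + 1) z = 0)
    (hind : ∀ c : ℤ, (∃ w, HSp.bdS E (n + 2) w = c • z) → c = 0),
    ∃ a : ℕ, C.StEq K a a

/-- **Top** (from TopX, HSp.MainB, HSp.TN).  All finite groups of deck transformations.
Cyclic group of prime power order: HSp.MainB (the hypothesis on Betti numbers is void), compare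
`Results/MP_181146_gt/CyclicFundamentalGroup.lean`. -/
def S_Top : Prop :=
  ∀ (X E : Type) [TopologicalSpace X] [TopologicalSpace E] [PathConnectedSpace X]
    [LocallyPathConnectedSpace X] [SimplyConnectedSpace E] (p : E → X) (hp : IsCoveringMap p)
    (e : X) (μ : C(X × X, X)) (hμ : HSp.IsHMul e μ) (hfin : Finite (HSp.Deck p))
    (C : HSp.Cpl (HSp.GR (HSp.Deck p))) (K : ℕ) (hC : C.IsPerf K)
    (heq : HSp.EqvSing (HSp.Deck p) C) (n : ℕ)
    (hE : ∀ i, i < n + 1 → ∀ x : HSp.SI E (i + 1), HSp.bdS E i x = 0 →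
      ∃ y, HSp.bdS E (i + 1) y = x)
    (z : HSp.SI E (n + 2)) (hz : HSp.bdS E (n + 1) z = 0)
    (hind : ∀ c : ℤ, (∃ w, HSp.bdS E (n + 2) w = c • z) → c = 0),
    ∃ a b : ℕ, (1 < Nat.card (HSp.Deck p) → a = b) ∧ C.StEq K a b

end HTx
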