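import Pool.Agent.Lib.MP_181146_gt.HT.SpecT
import Pool.Agent.Lib.MP_181146_gt.HP.SpecQ

/-!
# Project HT, module `Acy`: a nontrivial finite group has no bounded projective resolution of `ℤ`
-/

set_option autoImplicit false

namespace HTx

open HEp HPx

theorem noAcy (hFunH : S_FunH) (hTowU : S_TowU) (G : Type) [CommGroup G] [Finite G] (X : AX G)
    (K : ℕ) (hK : ∀ i, 2 * K ≤ i → Subsingleton (X.P i)) (hX : X.Ac (2 * K + 1)) (g : G) :
    g = 1 := by
  set m := orderOf g with hm
  have hgm : g ^ m = 1 := pow_orderOf_eq_one g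
  -- the two operators
  have tw_even : ∀ i, Even i → tw g m i = tw g m 0 := fun i hi => by
    rw [tw, tw, if_pos hi, if_pos Even.zero]
  have tw_odd : ∀ i, ¬ Even i → tw g m i = tw g m 1 := fun i hi => by
    rw [tw, tw, if_neg hi, if_neg (by decide)]
  have hofm : ∀ a b : G, MonoidAlgebra.of ℤ G (a * b) =
      MonoidAlgebra.of ℤ G a * MonoidAlgebra.of ℤ G b := fun a b => map_mul _ _ _
  have h01 : tw g m 0 * tw g m 1 = 0 := by
    have e0 : tw g m 0 = ∑ j ∈ Finset.range m, MonoidAlgebra.of ℤ G (g ^ j) := if_pos Even.zero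
    have e1 : tw g m 1 = MonoidAlgebra.of ℤ G g - 1 := if_neg (by decide)
    rw [e0, e1, mul_sub, mul_one, Finset.sum_mul]
    have e2 : ∀ j ∈ Finset.range m, MonoidAlgebra.of ℤ G (g ^ j) * MonoidAlgebra.of ℤ G g =
        MonoidAlgebra.of ℤ G (g ^ (j + 1)) := fun j _ => by
      rw [← hofm, ← pow_succ]
    rw [Finset.sum_congr rfl e2, ← Finset.sum_sub_distrib]
    refine (Finset.sum_range_sub (fun j => MonoidAlgebra.of ℤ G (g ^ j)) m).trans ?_
    rw [pow_zero, hgm, sub_self]
  have hmul : ∀ i, tw g m (i + 1) * tw g m i = 0 := by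
    intro i
    by_cases hi : Even i
    · rw [tw_even i hi, tw_odd (i + 1) (by
        rw [Nat.even_add_one]
        exact not_not.2 hi), mul_comm]
      exact h01
    · rw [tw_odd i hi, tw_even (i + 1) (Nat.even_add_one.2 hi)]
      exact h01
  -- functionals
  have hF : ∀ i j, ∀ f : X.P j →+ ℤ, (∀ x, f (tw g m (i + 1) • x) = 0) →
      ∃ c : X.P j →+ ℤ, ∀ x, f x = c (tw g m i • x) := by
    intro i j f hf
    by_cases hi : Even i
    · obtain ⟨c, hc⟩ := (hFunH G (X.P j) g f).2 (fun x => by
        have h := hf x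
        rw [tw_odd (i + 1) (by
          rw [Nat.even_add_one]
          exact not_not.2 hi)] at h
        exact h)
      exact ⟨c, fun x => by rw [hc, tw_even i hi]⟩
    · obtain ⟨c, hc⟩ := (hFunH G (X.P j) g f).1 (fun x => by
        have h := hf x
        rw [tw_even (i + 1) (Nat.even_add_one.2 hi)] at h
        exact h)
      exact ⟨c, fun x => by rw [hc, tw_odd i hi]⟩
  obtain ⟨b0, hb0⟩ : ∃ b : X.P 0 →+ ℤ, ∀ x, X.ε x = b (tw g m 0 • x) := by
    refine hF 0 0 X.ε fun x => ?_
    have e1 : tw g m (0 + 1) = MonoidAlgebra.of ℤ G g - 1 := if_neg (by decide)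
    rw [e1, sub_smul, one_smul, map_sub, X.εg, sub_self]
  -- the tower
  have step : ∀ i, ∀ b : X.P i →+ ℤ, (∀ y, b (X.d i (tw g m i • y)) = 0) →
      ∃ b' : X.P (i + 1) →+ ℤ, ∀ x, b' (tw g m (i + 1) • x) = b (X.d i x) := by
    intro i b hb
    obtain ⟨c, hc⟩ := hF (i + 1) (i + 1) (b.comp (X.d i).toAddMonoidHom) (fun x => by
      change b (X.d i (tw g m (i + 1 + 1) • x)) = 0
      by_cases hi : Even i
      · rw [tw_even (i + 1 + 1) (by
          rw [Nat.even_add_one, Nat.even_add_one]
          exact not_not.2 hi), ← tw_even i hi]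
        exact hb x
      · rw [tw_odd (i + 1 + 1) (by
          rw [Nat.even_add_one, Nat.even_add_one]
          exact not_not.2 hi), ← tw_odd i hi]
        exact hb x)
    exact ⟨c, fun x => (hc x).symm⟩
  have hex : ∃ b : ∀ i, X.P i →+ ℤ, (∀ x : X.P 0, X.ε x = b 0 (tw g m 0 • x)) ∧
      ∀ i (x : X.P (i + 1)), b (i + 1) (tw g m (i + 1) • x) = b i (X.d i x) := by
    -- build the sequence with the invariant
    have hinv : ∀ n, ∃ b : ∀ i, X.P i →+ ℤ, (∀ x : X.P 0, X.ε x = b 0 (tw g m 0 • x)) ∧
        (∀ i, i < n → ∀ x : X.P (i + 1), b (i + 1) (tw g m (i + 1) • x) = b i (X.d i x)) := by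
      intro n
      induction n with
      | zero =>
        refine ⟨fun i => match i with
          | 0 => b0
          | _ + 1 => 0, hb0, fun i hi => absurd hi (Nat.not_lt_zero i)⟩
      | succ n ih =>
        obtain ⟨b, hb1, hb2⟩ := ih
        have hz : ∀ y, b n (X.d n (tw g m n • y)) = 0 := by
          intro y
          rw [map_smul]
          cases n with
          | zero =>
            rw [← hb1, X.εd]
          | succ n =>
            rw [hb2 n (Nat.lt_succ_self n), X.dd, map_zero]
        obtain ⟨b', hb'⟩ := step n (b n) hz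
        refine ⟨Function.update b (n + 1) b', fun x => ?_, fun i hi x => ?_⟩
        · rw [Function.update_of_ne (Nat.succ_ne_zero n).symm]
          exact hb1 x
        · rcases Nat.lt_succ_iff_lt_or_eq.1 hi with h | h
          · rw [Function.update_of_ne (by omega), Function.update_of_ne (by omega)]
            exact hb2 i h x
          · subst h
            rw [Function.update_self, Function.update_of_ne (by omega)]
            exact hb' x
    obtain ⟨b, hb1, hb2⟩ := hinv (2 * K + 1)
    refine ⟨fun i => if i ≤ 2 * K then b i else 0, fun x => ?_, fun i x => ?_⟩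
    · change X.ε x = (if 0 ≤ 2 * K then b 0 else 0) (tw g m 0 • x)
      rw [if_pos (Nat.zero_le _)]
      exact hb1 x
    · by_cases hi : i + 1 ≤ 2 * K
      · change (if i + 1 ≤ 2 * K then b (i + 1) else 0) (tw g m (i + 1) • x) =
          (if i ≤ 2 * K then b i else 0) (X.d i x)
        rw [if_pos hi, if_pos (by omega)]
        exact hb2 i (by omega) x
      · have := hK (i + 1) (by omega)
        rw [Subsingleton.elim x 0, smul_zero, map_zero, map_zero, map_zero]
  obtain ⟨b, hb1, hb2⟩ := hex
  have hsub : Subsingleton (X.P (2 * K + 1)) := hK _ (by omega)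
  have hdvd := hTowU G X (2 * K) (even_two_mul K) hX g m hgm 0 (fun y _ => rfl) 1
    { b := b
      top := fun x => by
        rw [Subsingleton.elim x 0, smul_zero, map_zero, map_zero, map_zero]
      rel := fun i _ x => hb2 i x
      bot := fun x => by
        rw [one_mul]
        exact (hb1 x).symm }
  have hm1 : m = 1 := by
    have := Int.natAbs_dvd_natAbs.2 hdvd
    rw [Int.natAbs_natCast, Int.natAbs_one] at this
    exact Nat.dvd_one.1 this
  rw [hm, orderOf_eq_one_iff] at hm1
  exact hm1

end HTx
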