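import Pool.Agent.Lib.MP_181146_gt.HT.AllX
import Pool.Agent.Lib.MP_181146_gt.HA.All

/-!
# Project HT: the theorem for all finite groups
-/

set_option autoImplicit false

namespace HTx

/-- **TopL**, without hypotheses. -/
theorem aTopL : S_TopL := tTopL HAx.aCoreX

end HTx
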