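import Pool.Agent.Lib.MP_181146_gt.HT.SpecT

/-!
# Project HT, module `ClEx`: existence of the Clifford data
-/

set_option autoImplicit false

namespace HTx

open scoped TensorProduct
open HEp HPx

/-- **ClEx.** -/
theorem sClEx (hBas : HPx.S_Bas) (hPrm : HPx.S_Prm) : S_ClEx := by
  intro G _ _ X E _ act Λ v n hE z hzg hz hind
  -- the cycle `y = f' z`
  have hy : X.d n (Λ.f' (n + 1) z) = 0 := by
    rw [← Λ.f'd, hz, map_zero]
  have hzz : Λ.f (n + 1) (Λ.f' (n + 1) z) - z = bd ℤ (Sing E) (Λ.t z) := by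
    rw [Λ.ht (n + 1) z hzg, hz, map_zero, add_zero]
  have hyind : ∀ c : Fin 1 → ℤ, (∃ w, X.d (n + 1) w = ∑ i, c i • Λ.f' (n + 1) z) → c = 0 := by
    rintro c ⟨w, hw⟩
    rw [Fin.sum_univ_one] at hw
    have h1 : c 0 = 0 := by
      refine hind (c 0) (Λ.f (n + 1 + 1) w - c 0 • Λ.t z) ?_
      rw [map_sub, ← Λ.fd, hw, map_zsmul, map_zsmul, ← hzz, smul_sub, sub_sub_cancel]
    funext i
    have hi : i = 0 := Subsingleton.elim _ _
    rw [hi, h1]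
    rfl
  obtain ⟨u, y', hu, hy', huy⟩ := hBas G X n 1 (fun _ => Λ.f' (n + 1) z) (fun _ => hy) hyind
  have hx : ∃ xh : Ch ℤ (Sing E) →ₗ[ℤ] ℤ, ∀ c, xh c = u 0 (Λ.f' (n + 1) c) :=
    ⟨((u 0).comp (Λ.f' (n + 1))).toIntLinearMap, fun _ => rfl⟩
  obtain ⟨xh, hxh⟩ := hx
  have hSup : Sup (n + 1) xh := by
    intro i hi y hy
    rw [hxh, Λ.f'_gr i (n + 1) (Ne.symm hi) y hy, map_zero]
  have hxb : ∀ y, xh (bd ℤ (Sing E) y) = 0 := by
    intro y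
    rw [hxh, Λ.f'd]
    exact hu 0 _
  obtain ⟨c, hc⟩ : ∃ c, c = Λ.f (n + 1) (y' 0) := ⟨_, rfl⟩
  have hcg : c ∈ gr ℤ (Sing E) (n + 1) := by
    rw [hc]
    exact Λ.f_gr (n + 1) (y' 0)
  have hcb : bd ℤ (Sing E) c = 0 := by
    rw [hc, ← Λ.fd, hy' 0, map_zero]
  have hxc1 : xh c = 1 := by
    have h1 := Λ.hs n (y' 0)
    rw [hy' 0, map_zero, add_zero] at h1
    have h2 : Λ.f' (n + 1) c = y' 0 + X.d (n + 1) (Λ.h (n + 1) (y' 0)) := by
      rw [hc, ← h1]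
      abel
    rw [hxh, h2, map_add, hu 0, huy 0 0, if_pos rfl, add_zero]
  obtain ⟨w, hw⟩ := hPrm ℤ (Sing E) (vtx v) (n + 1) (Nat.succ_pos n) hE.1 hE.2 c hcg hcb
  exact ⟨{
    x := xh
    c := c
    x_sup := hSup
    x_bd := hxb
    c_gr := hcg
    c_bd := hcb
    x_c := hxc1
    w := w
    hw := hw }⟩

end HTx
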