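import Pool.Agent.Lib.MP_181146_gt.HT.Ev

/-!
# Project HT, module `EvR`: no cycle of infinite order in the first nonvanishing degree if it is even
-/

set_option autoImplicit false

namespace HTx

open scoped TensorProduct
open HEp HPx

namespace Ev

/-- **Rel**, even: `b A - A b = 1` up to homotopy, `b = cap x`, `A = c ·`. -/
lemma rel (hNabD : HEp.S_NabD) (hNabG : HEp.S_NabG) (hDlG : HEp.S_DlG) (hMid : HEp.S_Mid)
    (hTCM : HEp.S_TCM) (hHpn : S_Hpn) (hCapD : S_CapD) (hTw3 : S_Tw3) (hVtx : S_Vtx)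
    (hUnB : S_UnB)
    (e : ∀ p q : ℕ, Ch ℤ ((De p).prod (De q))) (he : EZ e) (k : Type) [CommRing k] (E : Type)
    [TopologicalSpace E] [PathConnectedSpace E] (v : E) (m : C(E × E, E))
    (hA : ContinuousMap.Homotopic (ContinuousMap.id E)
      (m.comp (ContinuousMap.prodMk (ContinuousMap.id E) (ContinuousMap.const E v))))
    (B : C(unitInterval × E, E)) (hB0 : ∀ x, B (0, x) = x) (hB1 : ∀ x, B (1, x) = m (v, x))
    (n : ℕ) (hn : Even n) (hn0 : 0 < n) (c : Ch k (Sing E)) (hc : c ∈ gr k (Sing E) n)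
    (hbc : bd k (Sing E) c = 0) (x : Ch k (Sing E) →ₗ[k] k) (hx : Sup n x)
    (hxb : ∀ y, x (bd k (Sing E) y) = 0) (hxc : x c = 1)
    (w : Ch k (Sing E) ⊗[k] Ch k (Sing E))
    (hw : dl k (Sing E) c = c ⊗ₜ sx k (vtx v) + sx k (vtx v) ⊗ₜ c +
      ((chDG k (Sing E)).tens (chDG k (Sing E))).d w) :
    ∃ a b κ : Ch k (Sing E) →ₗ[k] Ch k (Sing E),
      (∀ y, a (bd k (Sing E) y) = bd k (Sing E) (a y)) ∧
      (∀ y, b (bd k (Sing E) y) = bd k (Sing E) (b y)) ∧
      (∀ y, b (a y) = a (b y) + y + (bd k (Sing E) (κ y) + κ (bd k (Sing E) y))) ∧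
      (∀ i, ∀ y ∈ gr k (Sing E) i, a y ∈ gr k (Sing E) (i + n)) ∧
      (∀ i, i < n → ∀ y ∈ gr k (Sing E) i, b y = 0) := by
  obtain ⟨cx1, cx2, cx3, cx4⟩ := hCapD k (Sing E) n x hx
  obtain ⟨κ1, k1⟩ := t1 hHpn e he (SingMul m) n hn c hc hbc x hx hxb
  obtain ⟨β, b1, b2, b3⟩ := hUnB e he k E v m B hB0 hB1
  have hvx : ∀ σ : (Sing E).K 0, x (mu k e (SingMul m) (c ⊗ₜ sx k σ)) = 1 := fun σ => by
    rw [hVtx e he k E v m hA c hbc x hxb σ, hxc]
  have hξ : Sup (n - 1) (x ∘ₗ β) := by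
    intro i hi y hy
    exact hx (i + 1) (by omega) _ (b2 i y hy)
  obtain ⟨cξ1, -, -, -⟩ := hCapD k (Sing E) (n - 1) (x ∘ₗ β) hξ
  have hp1 : (-1 : k) ^ (n - 1) = -1 := by
    refine Odd.neg_one_pow ?_
    obtain ⟨r, hr⟩ := hn
    exact ⟨r - 1, by omega⟩
  have hp2 : (-1 : k) ^ n = 1 := hn.neg_one_pow
  obtain ⟨A, hA'⟩ : ∃ A : Ch k (Sing E) →ₗ[k] Ch k (Sing E),
      ∀ y, A y = mu k e (SingMul m) (c ⊗ₜ y) :=
    ⟨mu k e (SingMul m) ∘ₗ TensorProduct.mk k (Ch k (Sing E)) (Ch k (Sing E)) c, fun _ => rfl⟩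
  -- the odd part of `w`
  obtain ⟨hcm, -, -, -⟩ := hDlG k (Sing E)
  obtain ⟨w₀, hw₀, hPw⟩ : ∃ w₀ : Ch k (Sing E) ⊗[k] Ch k (Sing E),
      ((chDG k (Sing E)).tens (chDG k (Sing E))).d w₀ =
        ((chDG k (Sing E)).tens (chDG k (Sing E))).d w ∧
      ((chDG k (Sing E)).tens (chDG k (Sing E))).P w₀ = w₀ := by
    refine ⟨((chDG k (Sing E)).tens (chDG k (Sing E))).P w, ?_, ?_⟩
    · have hodc : od k (Sing E) c = 0 := od_ev n hn c hc
      have hodv : od k (Sing E) (sx k (vtx v)) = 0 := by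
        rw [od_sx, if_neg (by decide)]
      have e1 : ((chDG k (Sing E)).tens (chDG k (Sing E))).P (dl k (Sing E) c) = 0 := by
        have := hcm.P c
        rw [show (chDG k (Sing E)).P c = 0 from hodc, map_zero] at this
        exact this.symm
      have e2 : ((chDG k (Sing E)).tens (chDG k (Sing E))).P (c ⊗ₜ sx k (vtx v)) = 0 := by
        refine (DG.tens_P (chDG k (Sing E)) (chDG k (Sing E)) c (sx k (vtx v))).trans ?_
        change od k (Sing E) c ⊗ₜ[k] sx k (vtx v) + c ⊗ₜ[k] od k (Sing E) (sx k (vtx v)) -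
          (2 : k) • (od k (Sing E) c ⊗ₜ[k] od k (Sing E) (sx k (vtx v))) = 0
        rw [hodc, hodv, TensorProduct.tmul_zero, TensorProduct.tmul_zero,
          TensorProduct.zero_tmul, smul_zero, add_zero]
        exact sub_zero (0 : Ch k (Sing E) ⊗[k] Ch k (Sing E))
      have e3 : ((chDG k (Sing E)).tens (chDG k (Sing E))).P (sx k (vtx v) ⊗ₜ c) = 0 := by
        refine (DG.tens_P (chDG k (Sing E)) (chDG k (Sing E)) (sx k (vtx v)) c).trans ?_
        change od k (Sing E) (sx k (vtx v)) ⊗ₜ[k] c + sx k (vtx v) ⊗ₜ[k] od k (Sing E) c -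
          (2 : k) • (od k (Sing E) (sx k (vtx v)) ⊗ₜ[k] od k (Sing E) c) = 0
        rw [hodc, hodv, TensorProduct.zero_tmul, TensorProduct.zero_tmul,
          TensorProduct.tmul_zero, smul_zero, add_zero]
        exact sub_zero (0 : Ch k (Sing E) ⊗[k] Ch k (Sing E))
      have e4 : ((chDG k (Sing E)).tens (chDG k (Sing E))).d w = dl k (Sing E) c -
          c ⊗ₜ sx k (vtx v) - sx k (vtx v) ⊗ₜ c := by
        rw [hw]
        abel
      have e5 : ((chDG k (Sing E)).tens (chDG k (Sing E))).P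
          (((chDG k (Sing E)).tens (chDG k (Sing E))).d w) = 0 := by
        rw [e4, map_sub, map_sub, e1, e2, e3, sub_zero, sub_zero]
      rw [DG.Pd, map_sub, sub_eq_zero] at e5
      exact e5.symm
    · rw [DG.PP]
  rw [← hw₀] at hw
  -- the cochain `x ∘ (v ·)`
  have hx' : x ∘ₗ mu k e (SingMul m) ∘ₗ TensorProduct.mk k (Ch k (Sing E)) (Ch k (Sing E))
      (sx k (vtx v)) = x + (x ∘ₗ β) ∘ₗ bd k (Sing E) := by
    refine LinearMap.ext fun y => ?_
    change x (mu k e (SingMul m) (sx k (vtx v) ⊗ₜ y)) = x y + x (β (bd k (Sing E) y))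
    rw [b1, map_add, map_add, hxb, zero_add]
  have hAd : ∀ y, A (bd k (Sing E) y) = bd k (Sing E) (A y) := fun y => by
    rw [hA', hA', muA hNabD e he (SingMul m) n hn c hc hbc]
  have hcap : ∀ y, A (cap (x ∘ₗ mu k e (SingMul m) ∘ₗ
      TensorProduct.mk k (Ch k (Sing E)) (Ch k (Sing E)) (sx k (vtx v))) y) =
      A (cap x y) + A (cap (x ∘ₗ β) (bd k (Sing E) y)) +
        bd k (Sing E) (A (cap (x ∘ₗ β) y)) := by
    intro y
    have h1 := cξ1 y
    rw [hp1, neg_smul, one_smul, ← sub_eq_add_neg, eq_sub_iff_add_eq] at h1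
    rw [hx', cap_add', map_add, ← h1, map_add, hAd]
    abel
  have hxbd : ∀ y, cap x (bd k (Sing E) y) = bd k (Sing E) (cap x y) := by
    intro y
    have h0 : x ∘ₗ bd k (Sing E) = 0 := LinearMap.ext hxb
    rw [cx1 y, h0, cap_zero', hp2, zero_add, one_smul]
  have hrel : ∀ y, cap x (A y) = y + (bd k (Sing E) (β y) + β (bd k (Sing E) y)) +
      (A (cap x y) + A (cap (x ∘ₗ β) (bd k (Sing E) y)) + bd k (Sing E) (A (cap (x ∘ₗ β) y))) +
      (bd k (Sing E) (Tw e (SingMul m) x w₀ y) + Tw e (SingMul m) x w₀ (bd k (Sing E) y)) +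
      (bd k (Sing E) (κ1 y) + κ1 (bd k (Sing E) y)) := by
    intro y
    rw [hA', k1, hw, Tw_add, Tw_add,
      hTw3 e he k (Sing E) (SingMul m) n c hc x hx (vtx v) hvx y,
      tw4 e (SingMul m) n hn c hc x (vtx v) y,
      twD hDlG hMid hTCM hNabD hNabG e he (SingMul m) n hn x hx hxb w₀ hPw y, b1, ← hA', hcap]
  refine ⟨A, cap x, β + A ∘ₗ cap (x ∘ₗ β) + Tw e (SingMul m) x w₀ + κ1, hAd, hxbd, ?_, ?_,
    cx3⟩
  · intro y
    rw [hrel y]
    simp only [LinearMap.add_apply, LinearMap.comp_apply, map_add]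
    abel
  · intro i y hy
    rw [hA']
    exact muG hNabG e he (SingMul m) n c hc i y hy

end Ev

/-- **Evn.** -/
theorem sEvn (hNabD : HEp.S_NabD) (hNabG : HEp.S_NabG) (hDlG : HEp.S_DlG) (hMid : HEp.S_Mid)
    (hTCM : HEp.S_TCM) (hHpn : S_Hpn) (hCapD : S_CapD) (hTw3 : S_Tw3) (hVtx : S_Vtx)
    (hUnB : S_UnB) : S_Evn := by
  intro e he G _ E _ _ D X K hK Λ n hn0 Q
  by_contra hodd
  have hn : Even n := Nat.not_odd_iff_even.1 hodd
  have hA : ContinuousMap.Homotopic (ContinuousMap.id E)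
      (D.m.comp (ContinuousMap.prodMk (ContinuousMap.id E) (ContinuousMap.const E D.v))) :=
    ⟨{ toContinuousMap := D.A
       map_zero_left := fun x => D.A0 x
       map_one_left := fun x => D.A1 x }⟩
  obtain ⟨a, b, κ, ha, hb, hab, hag, hb0⟩ := Ev.rel hNabD hNabG hDlG hMid hTCM hHpn hCapD hTw3
    hVtx hUnB e he ℤ E D.v D.m hA D.B D.B0 D.B1 n hn hn0 Q.c Q.c_gr Q.c_bd Q.x Q.x_sup Q.x_bd Q.x_c
    Q.w Q.hw
  -- the powers of `c`
  obtain ⟨f, hf0, hf1⟩ : ∃ f : ℕ → Ch ℤ (Sing E), f 0 = sx ℤ (vtx D.v) ∧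
      ∀ k, f (k + 1) = a (f k) :=
    ⟨fun k => Nat.rec (sx ℤ (vtx D.v)) (fun _ y => a y) k, rfl, fun _ => rfl⟩
  have hfg : ∀ k, f k ∈ gr ℤ (Sing E) (k * n) := by
    intro k
    induction k with
    | zero =>
      rw [hf0, Nat.zero_mul]
      exact sx_mem_gr ℤ _
    | succ k ih =>
      rw [hf1, Nat.succ_mul]
      exact hag _ _ ih
  have hfb : ∀ k, bd ℤ (Sing E) (f k) = 0 := by
    intro k
    induction k with
    | zero =>
      rw [hf0]
      exact bd_sx_zero ℤ _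
    | succ k ih => rw [hf1, ← ha, ih, map_zero]
  have hbf : ∀ k : ℕ, ∃ u, b (f (k + 1)) = ((k : ℤ) + 1) • f k + bd ℤ (Sing E) u := by
    intro k
    induction k with
    | zero =>
      refine ⟨κ (f 0), ?_⟩
      rw [hf1, hab, hfb, map_zero, add_zero, hb0 0 hn0 (f 0) (by
        have := hfg 0
        rwa [Nat.zero_mul] at this), map_zero, zero_add]
      simp
    | succ k ih =>
      obtain ⟨u, hu⟩ := ih
      refine ⟨a u + κ (f (k + 1)), ?_⟩
      rw [hf1 (k + 1), hab, hfb, map_zero, add_zero, hu, map_add, map_zsmul, ha, map_add, ← hf1,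
        Nat.cast_succ, add_smul ((k : ℤ) + 1) 1, one_smul]
      abel
  -- multiples of `c^k` are not boundaries
  have hnb : ∀ (k : ℕ) (N : ℤ), N ≠ 0 → ∀ u, bd ℤ (Sing E) u ≠ N • f k := by
    intro k
    induction k with
    | zero =>
      intro N hN u hu
      have h1 := congrArg (aug ℤ (Sing E)) hu
      rw [aug_bd, hf0, map_smul, aug_sx_zero, smul_eq_mul, mul_one] at h1
      exact hN h1.symm
    | succ k ih =>
      intro N hN u hu
      obtain ⟨u', hu'⟩ := hbf k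
      refine ih (N * ((k : ℤ) + 1)) (mul_ne_zero hN (by positivity)) (b u - N • u') ?_
      have h1 := congrArg b hu
      rw [hb, map_zsmul, hu', smul_add] at h1
      rw [map_sub, h1, map_zsmul, mul_smul]
      abel
  -- a large power is a boundary
  have hk : 2 * K ≤ 2 * K * n := Nat.le_mul_of_pos_right _ hn0
  have h1 := Λ.ht (2 * K * n) (f (2 * K)) (hfg (2 * K))
  have h2 : Λ.f' (2 * K * n) (f (2 * K)) = 0 := @Subsingleton.elim _ (hK _ hk) _ _
  rw [h2, map_zero, hfb, map_zero, add_zero, zero_sub] at h1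
  refine hnb (2 * K) 1 one_ne_zero (-(Λ.t (f (2 * K)))) ?_
  rw [map_neg, ← h1, neg_neg, one_smul]

end HTx
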