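import Pool.Agent.Lib.MP_181146_gt.HT.Cmp

/-!
# Project HT, module `GrZ`: transfer of a cycle of infinite order
-/

set_option autoImplicit false

namespace HTx

open HEp HPx Cmp

open Pool.Agent.Lib

/-- **GrZ.** -/
theorem sGrZ : S_GrZ := by
  intro E _ n z hz hind
  obtain ⟨z', hz', hind'⟩ : ∃ z' : (HSp.SC E).X (n + 1),
      ((HSp.SC E).d (n + 1) n).hom z' = 0 ∧ ∀ (c : ℤ) (w : (HSp.SC E).X (n + 1 + 1)),
        ((HSp.SC E).d (n + 1 + 1) (n + 1)).hom w = c • z' → c = 0 :=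
    ⟨z, hz, fun c w h => hind c ⟨w, h⟩⟩
  refine ⟨inc (n + 1) (ci (n + 1) z'), inc_mem _ _, ?_, ?_⟩
  · rw [bd_inc_succ, ← ci_d, hz', map_zero, map_zero]
  · intro c w hw
    refine hind' c (cm (n + 2) (prj (n + 2) w)) ?_
    rw [cm_d, ← prj_bd, hw, map_zsmul, prj_inc, map_zsmul, cm_ci]

end HTx
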