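import Pool.Agent.Lib.MP_181146_gt.HT.Cmp

/-!
# Project HT, module `LTEx`: the link with the singular chains, with equivariant homotopies
-/

set_option autoImplicit false

namespace HTx

open HEp HPx Cmp

open Pool.Agent.Lib

/-- **LTEx.** -/
theorem sLTEx : S_LTEx := by
  intro E _ G _ act M _ _ _ _ d dd u u' a b ud u'd ha0 ha hb0 hb ug u'g ag bg
  let F : ∀ i, M i →+ Ch ℤ (Sing E) := fun i => ((inc i ∘ₗ ci i).toAddMonoidHom).comp (u i)
  let F' : ∀ i, Ch ℤ (Sing E) →+ M i := fun i => (u' i).comp ((cm i ∘ₗ prj i).toAddMonoidHom)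
  have eF : ∀ i x, F i x = inc i (ci i (u i x)) := fun _ _ => rfl
  have eF' : ∀ i c, F' i c = u' i (cm i (prj i c)) := fun _ _ => rfl
  have kfd : ∀ (n : ℕ) (x : M (n + 1)), F n (d n x) = bd ℤ (Sing E) (F (n + 1) x) := by
    intro n x
    rw [eF, eF, bd_inc_succ, ← ci_d, ← ud]
  have kfg : ∀ (g : G) (i : ℕ) (x : M i), F i (MonoidAlgebra.of ℤ G g • x) =
      cmap ℤ (SingMap (act g)) (F i x) := by
    intro g i x
    rw [eF, eF, ug, ci_map, cmap_inc]
  let ε : M 0 →+ ℤ := (aug ℤ (Sing E)).toAddMonoidHom.comp (F 0)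
  have eε : ∀ x, ε x = aug ℤ (Sing E) (F 0 x) := fun _ => rfl
  have εg : ∀ (g : G) (x : M 0), ε (MonoidAlgebra.of ℤ G g • x) = ε x := by
    intro g x
    rw [eε, eε, kfg, aug_cmap]
  have εd : ∀ x, ε (d 0 x) = 0 := by
    intro x
    rw [eε, kfd, aug_bd]
  refine ⟨ε, εg, εd, ⟨{
    f := F
    f' := F'
    h := a
    f_gr := fun i x => inc_mem i _
    f'_gr := ?_
    fd := kfd
    f'd := ?_
    fε := fun x => rfl
    f'ε := ?_
    h0 := ?_
    hs := ?_
    fg := kfg
    f'g := ?_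
    hg := fun g i x => ag g i x
    t := (tt b).toAddMonoidHom
    t_gr := ?_
    ht := ?_
    tg := ?_ }⟩⟩
  · intro n i hi c hc
    change u' i (cm i (prj i c)) = 0
    rw [prj_ne hi hc, map_zero, map_zero]
  · intro i c
    change u' i (cm i (prj i (bd ℤ (Sing E) c))) = d i (u' (i + 1) (cm (i + 1) (prj (i + 1) c)))
    rw [prj_bd, ← cm_d, u'd]
  · refine fun c => Lk_ind (ε.comp (F' 0)) (aug ℤ (Sing E)).toAddMonoidHom ?_ c
    intro n c
    change aug ℤ (Sing E) (inc 0 (ci 0 (u 0 (u' 0 (cm 0 (prj 0 (inc n c))))))) =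
      aug ℤ (Sing E) (inc n c)
    cases n with
    | zero =>
      rw [prj_inc, ← sub_eq_zero, ← map_sub]
      have e : inc 0 (ci 0 (u 0 (u' 0 (cm 0 c)))) - inc 0 c =
          inc 0 (ci 0 (u 0 (u' 0 (cm 0 c)) - cm 0 c)) := by
        rw [map_sub, map_sub, ci_cm]
      rw [e, hb0, ci_d, ← bd_inc_succ, aug_bd]
    | succ n =>
      rw [prj_ne (Nat.succ_ne_zero n).symm (inc_mem (n + 1) _), aug_inc_succ]
      simp only [map_zero]
  · intro (x : M 0)
    change u' 0 (cm 0 (prj 0 (inc 0 (ci 0 (u 0 x))))) - x = d 0 (a 0 x)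
    rw [prj_inc, cm_ci]
    exact ha0 x
  · intro i (x : M (i + 1))
    change u' (i + 1) (cm (i + 1) (prj (i + 1) (inc (i + 1) (ci (i + 1) (u (i + 1) x))))) - x =
      d (i + 1) (a (i + 1) x) + a i (d i x)
    rw [prj_inc, cm_ci]
    exact ha i x
  · intro g i c
    change u' i (cm i (prj i (cmap ℤ (SingMap (act g)) c))) =
      MonoidAlgebra.of ℤ G g • u' i (cm i (prj i c))
    rw [prj_cmap, ← cm_map, u'g]
  · intro i c hc
    obtain ⟨c, rfl⟩ := exists_inc hc
    change tt b (inc i c) ∈ gr ℤ (Sing E) (i + 1)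
    rw [tt_inc]
    exact inc_mem (i + 1) _
  · intro i c hc
    obtain ⟨c, rfl⟩ := exists_inc hc
    change inc i (ci i (u i (u' i (cm i (prj i (inc i c)))))) - inc i c =
      bd ℤ (Sing E) (tt b (inc i c)) + tt b (bd ℤ (Sing E) (inc i c))
    rw [prj_inc]
    have e : inc i (ci i (u i (u' i (cm i c)))) - inc i c =
        inc i (ci i (u i (u' i (cm i c)) - cm i c)) := by
      rw [map_sub, map_sub, ci_cm]
    rw [e, tt_inc, bd_inc_succ, ← ci_d]
    cases i with
    | zero =>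
      rw [bd_inc_zero, map_zero, add_zero, hb0]
    | succ n =>
      rw [bd_inc_succ, tt_inc, ← cm_d, hb, map_add, map_add]
  · intro g
    refine Lk_ind ((tt b).toAddMonoidHom.comp (cmap ℤ (SingMap (act g))).toAddMonoidHom)
      ((cmap ℤ (SingMap (act g))).toAddMonoidHom.comp (tt b).toAddMonoidHom) ?_
    intro n c
    change tt b (cmap ℤ (SingMap (act g)) (inc n c)) =
      cmap ℤ (SingMap (act g)) (tt b (inc n c))
    rw [cmap_inc, tt_inc, tt_inc, cmap_inc, ← cm_map, bg, ci_map]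

end HTx
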