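import Pool.Agent.Lib.MP_181146_gt.HT.SpecT
import Pool.Agent.Lib.MP_181146_gt.HE.SpecS
import Pool.Agent.Lib.MP_181146_gt.HS.SlimT
import Pool.Agent.Lib.MP_181146_gt.HS.Spec

/-!
# Project HT, module `TopX`: groups of deck transformations which are not cyclic of prime power order
-/

set_option autoImplicit false

namespace HTx

open HEp HPx

/-- **TopX.** -/
theorem sTopX (hCoreX : S_CoreX) (hEvn : S_Evn) (hLTEx : S_LTEx) (hClEx : S_ClEx) (hGrZ : S_GrZ)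
    (hLkAc : HPx.S_LkAc) (hAcEx : HPx.S_AcEx) (hLfE : HPx.S_LfE) (hLpc : HEp.S_Lpc)
    (hDCo : HEp.S_DCo) (hPNx : HEp.S_PNx) (hEZex : HEp.S_EZex) (hTN : HSp.S_TN) : S_TopX := by
  intro X E _ _ _ _ _ p hp e μ hμ hfin hG C K hC heq n hE z hz hind
  have hlpc : LocallyPathConnectedSpace E := hLpc X E p hp
  obtain ⟨v, m, A, B, hA0, hA1, hB0, hB1, hAB, hm⟩ := hLfE X E p hp e μ hμ
  have hN : HSp.PropN (HSp.Deck p) := hTN X E p hp e μ hμ
  have hcomm := hDCo E (HSp.Deck p) hN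
  have hPN := hPNx E (HSp.Deck p) hN C.cx (C.cx_equiv heq)
  obtain ⟨f, g, s', t', ha, fγ, gγ, sγ, tγ, hf, hg, ⟨hs0, hs1⟩, ⟨ht0, ht1⟩⟩ := heq
  obtain ⟨e', he⟩ := hEZex
  let cg : CommGroup (HSp.Deck p) :=
    { (inferInstance : Group (HSp.Deck p)) with mul_comm := hcomm }
  have hfi : ∀ i, Module.Finite (ZG (HSp.Deck p)) (C.X i) := fun i => (hC i).1
  have hpr : ∀ i, Module.Projective (ZG (HSp.Deck p)) (C.X i) := fun i => (hC i).2.1
  let D : Mlt (HSp.Deck p) E :=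
    { act := fun g => (g.1 : C(E, E))
      act_one := rfl
      act_mul := fun a b => rfl
      v := v
      m := m
      A := A
      B := B
      A0 := hA0
      A1 := hA1
      B0 := hB0
      B1 := hB1
      Ag := fun g s x => (hAB g s x).1
      Bg := fun g s x => (hAB g s x).2
      m1 := fun g x y => (hm g x y).1
      m2 := fun g x y => (hm g x y).2 }
  obtain ⟨ε, εg, εd, ⟨Λ⟩⟩ := hLTEx E (HSp.Deck p) D.act C.X C.dL C.d_d
    (fun i => AddMonoidHom.mk' (f i) (ha i).1)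
    (fun i => AddMonoidHom.mk' (g i) (ha i).2.1) (fun i => AddMonoidHom.mk' (s' i) (ha i).2.2.1)
    (fun i => AddMonoidHom.mk' (t' i) (ha i).2.2.2) (fun i x => (hf i x).symm)
    (fun i x => (hg i x).symm) (fun x => (hs0 x).symm) (fun i x => (hs1 i x).symm)
    (fun x => (ht0 x).symm) (fun i x => (ht1 i x).symm) (fun γ i x => fγ i γ x)
    (fun γ i x => gγ i γ x) (fun γ i x => sγ i γ x) (fun γ i x => tγ i γ x)
  have hAc : AcE E (vtx v) (n + 1 + 1) := hAcEx E v (n + 1 + 1) fun i hi => hE i (by omega)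
  have hX : (mkAX C.X C.dL C.d_d ε εg εd).Ac (n + 1 + 1) :=
    hLkAc (HSp.Deck p) _ E D.act Λ.toLk (vtx v) (n + 1 + 1) hAc
  obtain ⟨z', hzg, hz', hind'⟩ := hGrZ E (n + 1) z hz hind
  obtain ⟨Q⟩ := hClEx (HSp.Deck p) (mkAX C.X C.dL C.d_d ε εg εd) E D.act Λ v (n + 1) hAc z' hzg
    hz' hind'
  have hXPN : (mkAX C.X C.dL C.d_d ε εg εd).PN := by
    intro γ
    obtain ⟨h, h0, h1⟩ := hPN γ
    refine ⟨h, ?_, ?_⟩
    · intro x
      exact (LinearMap.congr_fun (C.cx_d 0) (h 0 x)).symm.trans (h0 x)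
    · intro i x
      refine Eq.trans ?_ (h1 i x)
      exact congrArg₂ (fun (a : C.X (i + 1)) (b : C.X i) =>
          (a + (show C.X (i + 1) from h i b) : C.X (i + 1)))
        (LinearMap.congr_fun (C.cx_d (i + 1)) (h (i + 1) x)).symm
        (LinearMap.congr_fun (C.cx_d i) x).symm
  have hn : Odd (n + 1 + 1) := hEvn e' he (HSp.Deck p) E D (mkAX C.X C.dL C.d_d ε εg εd) K
    (fun i hi => (hC i).2.2 hi) Λ (n + 1 + 1) (Nat.succ_pos _) Q
  exact hCoreX e' he (HSp.Deck p) hG E D (mkAX C.X C.dL C.d_d ε εg εd) K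
    (fun i hi => (hC i).2.2 hi) hXPN Λ (n + 1 + 1) hn (by omega) hX hAc Q

end HTx
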