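import Pool.Agent.Lib.MP_181146_gt.HT.TopL
import Pool.Agent.Lib.MP_181146_gt.HT.TopX
import Pool.Agent.Lib.MP_181146_gt.HT.EvR
import Pool.Agent.Lib.MP_181146_gt.HT.LTEx
import Pool.Agent.Lib.MP_181146_gt.HT.ClEx
import Pool.Agent.Lib.MP_181146_gt.HT.GrZ
import Pool.Agent.Lib.MP_181146_gt.HP.All
import Pool.Agent.Lib.MP_181146_gt.HE.All
import Pool.Agent.Lib.MP_181146_gt.HS.All

/-!
# Project HT: assembly of the topological part
-/

set_option autoImplicit false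

namespace HTx

open HEp HPx HSp

theorem tEvn : S_Evn :=
  sEvn HEp.pNabD HEp.pNabG HEp.pDlG HEp.pMid HEp.pTCM pHpn pCapD pTw3 pVtx pUnB

theorem tClEx : S_ClEx := sClEx pBas pPrm

theorem tTop (hCoreX : S_CoreX) : S_Top :=
  sTop (sTopX hCoreX tEvn sLTEx tClEx sGrZ pLkAc pAcEx pLfE HEp.pLpc HEp.pDCo HEp.pPNx HEp.pEZex
    HSp.pTN) HSp.pMainB HSp.pTN

theorem tTopL (hCoreX : S_CoreX) : S_TopL :=
  sTopL (tTop hCoreX) pSHE pFunH pTowU sLTEx pLkAc pAcEx HEp.pDCo HSp.pTN HSp.pMainB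

end HTx
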