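import Pool.Agent.Lib.MP_181146_gt.HT.SpecT
import Pool.Agent.Lib.MP_181146_gt.HE.DlG
import Pool.Agent.Lib.MP_181146_gt.HE.AwD
import Pool.Agent.Lib.MP_181146_gt.HE.AwG

/-!
# Project HT, module `Ev`: the relation `X Ξ - Ξ X = 1` for a class of even degree

Even degree version of `HP/MuA`, `HP/LxD`, `HP/T1`, `HP/TwD`, `HP/Tw4`, `HP/Rel`, over `ℤ`.
-/

set_option autoImplicit false

namespace HTx

open scoped TensorProduct
open HEp HPx

namespace Ev

section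

variable {k : Type} [CommRing k] {K : SS}

lemma gr_ind {n : ℕ} {M : Type} [AddCommGroup M]
    [Module k M] (f : Ch k K →ₗ[k] M) (S : Submodule k M) (h : ∀ x : K.K n, f (sx k x) ∈ S)
    (x : Ch k K) (hx : x ∈ gr k K n) : f x ∈ S := by
  have h1 : gr k K n ≤ S.comap f := by
    rw [gr, Finsupp.supported_eq_span_single, Submodule.span_le]
    rintro _ ⟨⟨m, y⟩, hm, rfl⟩
    change m = n at hm
    subst hm
    exact h y
  exact h1 hx

lemma cmap_gr {L : SS} (f : SSHom K L) (n : ℕ) (x : Ch k K)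
    (hx : x ∈ gr k K n) : cmap k f x ∈ gr k L n := by
  refine gr_ind (cmap k f) (gr k L n) (fun x => ?_) x hx
  rw [cmap_sx]
  exact sx_mem_gr k _

lemma od_ev (n : ℕ) (h : Even n) (x : Ch k K)
    (hx : x ∈ gr k K n) : od k K x = 0 := by
  have h1 := gr_ind (od k K) ⊥ (fun x => by
    rw [od_sx, if_neg (Nat.not_odd_iff_even.2 h)]
    exact Submodule.zero_mem _) x hx
  rwa [Submodule.mem_bot] at h1

/-- the differential of `c ⊗ y`, `c` an even cycle -/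
lemma d_ev (n : ℕ) (hn : Even n) (c : Ch k K) (hc : c ∈ gr k K n)
    (hbc : bd k K c = 0) (y : Ch k K) :
    ((chDG k K).tens (chDG k K)).d (c ⊗ₜ y) = c ⊗ₜ[k] bd k K y := by
  have h2 : ((chDG k K).tens (chDG k K)).d (c ⊗ₜ y) =
    bd k K c ⊗ₜ[k] y + (c - (2 : k) • od k K c) ⊗ₜ[k] bd k K y := rfl
  rw [h2, hbc, TensorProduct.zero_tmul, zero_add, od_ev n hn c hc, smul_zero, sub_zero]

/-- **MuA**, even. -/
lemma muA (hNabD : HEp.S_NabD)
    (e : ∀ p q : ℕ, Ch ℤ ((De p).prod (De q))) (he : EZ e) (m : SSHom (K.prod K) K) (n : ℕ)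
    (hn : Even n) (c : Ch k K) (hc : c ∈ gr k K n) (hbc : bd k K c = 0) (y : Ch k K) :
    mu k e m (c ⊗ₜ bd k K y) = bd k K (mu k e m (c ⊗ₜ y)) := by
  have h1 := hNabD e he k K K (c ⊗ₜ y)
  have h3 := d_ev n hn c hc hbc y
  have h5 : bd k (K.prod K) (nab k e K K (c ⊗ₜ y)) = nab k e K K (c ⊗ₜ[k] bd k K y) :=
    h1.symm.trans (congrArg _ h3)
  rw [mu, LinearMap.comp_apply, LinearMap.comp_apply, ← cmap_bd, h5]

lemma muG (hNabG : HEp.S_NabG)
    (e : ∀ p q : ℕ, Ch ℤ ((De p).prod (De q))) (he : EZ e) (m : SSHom (K.prod K) K) (n : ℕ)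
    (c : Ch k K) (hc : c ∈ gr k K n) (i : ℕ) (y : Ch k K) (hy : y ∈ gr k K i) :
    mu k e m (c ⊗ₜ y) ∈ gr k K (i + n) := by
  rw [mu, LinearMap.comp_apply, add_comm i n]
  exact cmap_gr _ _ _ ((hNabG e he k K K).1 n i c hc y hy)

lemma x_od {n : ℕ} (hn : Even n)
    (x : Ch k K →ₗ[k] k) (hx : Sup n x) (a : Ch k K) : x (od k K a) = 0 := by
  have h : x ∘ₗ od k K = 0 := ch_ext fun i s => by
    rw [LinearMap.comp_apply, od_sx, LinearMap.zero_apply]
    split_ifs with hi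
    · exact hx i (fun h => (Nat.not_odd_iff_even.2 hn) (h ▸ hi)) _ (sx_mem_gr k s)
    · rw [map_zero]
  exact LinearMap.congr_fun h a

/-- **LxD**, even. -/
lemma lxD (n : ℕ) (hn : Even n) (x : Ch k K →ₗ[k] k) (hx : Sup n x)
    (hxb : ∀ y, x (bd k K y) = 0) (z : Ch k K ⊗[k] Ch k K) :
    lx x (((chDG k K).tens (chDG k K)).d z) = bd k K (lx x z) := by
  induction z with
  | zero => rw [map_zero, map_zero, map_zero]
  | add a b ha hb => rw [map_add, map_add, map_add, map_add, ha, hb]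
  | tmul a b =>
    rw [DG.tens_d, map_add, lx_tmul, lx_tmul, lx_tmul]
    change x (bd k K a) • b + x ((chDG k K).sg a) • bd k K b = bd k K (x a • b)
    rw [hxb, zero_smul, zero_add, DG.sg_apply]
    change x (a - (2 : k) • od k K a) • bd k K b = bd k K (x a • b)
    rw [map_sub, map_smul, x_od hn x hx, smul_zero, sub_zero, map_smul]

/-- **T1**, even. -/
lemma t1 (hHpn : S_Hpn) (e : ∀ p q : ℕ, Ch ℤ ((De p).prod (De q))) (he : EZ e)
    (m : SSHom (K.prod K) K) (n : ℕ) (hn : Even n) (c : Ch k K) (hc : c ∈ gr k K n)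
    (hbc : bd k K c = 0) (x : Ch k K →ₗ[k] k) (hx : Sup n x) (hxb : ∀ y, x (bd k K y) = 0) :
    ∃ κ : Ch k K →ₗ[k] Ch k K, ∀ y, cap x (mu k e m (c ⊗ₜ y)) =
      Tw e m x (dl k K c) y + (bd k K (κ y) + κ (bd k K y)) := by
  obtain ⟨H, hH, -⟩ := hHpn e he k K m
  refine ⟨lx x ∘ₗ H ∘ₗ TensorProduct.mk k (Ch k K) (Ch k K) c, ?_⟩
  intro y
  have h1 := congrArg (lx x) (hH (c ⊗ₜ y))
  rw [map_sub, map_add, lxD n hn x hx hxb, TensorProduct.map_tmul] at h1
  have h2 := d_ev n hn c hc hbc y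
  replace h1 := h1.trans (congrArg (fun t => bd k K (lx x (H (c ⊗ₜ[k] y))) + lx x (H t)) h2)
  have h3 : Tw e m x (dl k K c) y = lx x (TensorProduct.map (mu k e m) (mu k e m)
      (exch (od k K) (dl k K c ⊗ₜ[k] dl k K y))) := rfl
  have h4 : cap x (mu k e m (c ⊗ₜ[k] y)) = lx x (dl k K (mu k e m (c ⊗ₜ[k] y))) := rfl
  rw [← h3, ← h4] at h1
  change cap x (mu k e m (c ⊗ₜ[k] y)) = Tw e m x (dl k K c) y +
    (bd k K (lx x (H (c ⊗ₜ[k] y))) + lx x (H (c ⊗ₜ[k] bd k K y)))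
  rw [sub_eq_iff_eq_add] at h1
  rw [h1]
  abel

/-- `mu` is a chain map which preserves the parity. -/
lemma muCM (hNabD : HEp.S_NabD) (hNabG : HEp.S_NabG)
    (e : ∀ p q : ℕ, Ch ℤ ((De p).prod (De q))) (he : EZ e) (m : SSHom (K.prod K) K) :
    IsCM ((chDG k K).tens (chDG k K)) (chDG k K) (mu k e m) := by
  refine ⟨fun z => ?_, fun z => ?_⟩
  · change cmap k m (nab k e K K (((chDG k K).tens (chDG k K)).d z)) =
      bd k K (cmap k m (nab k e K K z))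
    rw [hNabD e he k K K z, cmap_bd]
  · change cmap k m (nab k e K K (((chDG k K).tens (chDG k K)).P z)) =
      od k K (cmap k m (nab k e K K z))
    rw [(hNabG e he k K K).2 z, cmap_od]

/-- The differential of `w ⊗ u` for odd `w`. -/
lemma dOdd (A B : DG k) (w : A.V) (hw : A.P w = w) (u : B.V) :
    (A.tens B).d (w ⊗ₜ u) = A.d w ⊗ₜ u - w ⊗ₜ B.d u := by
  rw [DG.tens_d, DG.sg_apply, hw, sub_eq_add_neg (A.d w ⊗ₜ[k] u), ← TensorProduct.neg_tmul]
  congr 2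
  rw [two_smul]
  abel

lemma dgAdd (A B : DG k) (f : A.V →ₗ[k] B.V) (a b : A.V) :
    f (a + b) = f a + f b := map_add f a b

/-- **TwD**, `x` even, `w` odd. -/
lemma twD (hDlG : HEp.S_DlG) (hMid : HEp.S_Mid) (hTCM : HEp.S_TCM)
    (hNabD : HEp.S_NabD) (hNabG : HEp.S_NabG)
    (e : ∀ p q : ℕ, Ch ℤ ((De p).prod (De q))) (he : EZ e) (m : SSHom (K.prod K) K) (n : ℕ)
    (hn : Even n) (x : Ch k K →ₗ[k] k) (hx : Sup n x) (hxb : ∀ y, x (bd k K y) = 0)
    (w : Ch k K ⊗[k] Ch k K) (hw : ((chDG k K).tens (chDG k K)).P w = w) (y : Ch k K) :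
    Tw e m x (((chDG k K).tens (chDG k K)).d w) y =
      bd k K (Tw e m x w y) + Tw e m x w (bd k K y) := by
  have hmu := muCM (k := k) (K := K) hNabD hNabG e he m
  have hmm := hTCM k _ _ _ _ _ _ hmu hmu
  have hmid := (hMid k (chDG k K) (chDG k K) (chDG k K) (chDG k K)).1
  have hdl : ((chDG k K).tens (chDG k K)).d (dl k K y) = dl k K (bd k K y) :=
    ((hDlG k K).1.d y).symm
  have h1 : (((chDG k K).tens (chDG k K)).d w ⊗ₜ[k] dl k K y :
      (Ch k K ⊗[k] Ch k K) ⊗[k] (Ch k K ⊗[k] Ch k K)) =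
      (((chDG k K).tens (chDG k K)).tens ((chDG k K).tens (chDG k K))).d (w ⊗ₜ dl k K y) +
        w ⊗ₜ dl k K (bd k K y) := by
    have h := dOdd ((chDG k K).tens (chDG k K)) ((chDG k K).tens (chDG k K)) w hw (dl k K y)
    rw [hdl] at h
    exact (eq_sub_iff_add_eq.1 h).symm
  have h2 : ∀ z, exch (od k K) ((((chDG k K).tens (chDG k K)).tens
      ((chDG k K).tens (chDG k K))).d z) =
      (((chDG k K).tens (chDG k K)).tens ((chDG k K).tens (chDG k K))).d (exch (od k K) z) :=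
    fun z => hmid.d z
  have h3 : ∀ z, TensorProduct.map (mu k e m) (mu k e m)
      ((((chDG k K).tens (chDG k K)).tens ((chDG k K).tens (chDG k K))).d z) =
      ((chDG k K).tens (chDG k K)).d (TensorProduct.map (mu k e m) (mu k e m) z) :=
    fun z => hmm.d z
  have h4 : Tw e m x (((chDG k K).tens (chDG k K)).d w) y =
      lx x (TensorProduct.map (mu k e m) (mu k e m) (exch (od k K)
        ((((chDG k K).tens (chDG k K)).tens ((chDG k K).tens (chDG k K))).d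
          (w ⊗ₜ dl k K y)))) + Tw e m x w (bd k K y) := by
    rw [Tw_apply, Tw_apply]
    refine Eq.trans (congrArg (fun t => lx x (TensorProduct.map (mu k e m) (mu k e m)
      (exch (od k K) t))) h1) ?_
    exact dgAdd (((chDG k K).tens (chDG k K)).tens ((chDG k K).tens (chDG k K))) (chDG k K)
      (lx x ∘ₗ TensorProduct.map (mu k e m) (mu k e m) ∘ₗ exch (od k K)) _ _
  rw [h4, h2, h3, lxD n hn x hx hxb]
  rfl

lemma tt_ext {M : Type} [AddCommGroup M]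
    [Module k M] {f g : Ch k K ⊗[k] Ch k K →ₗ[k] M}
    (h : ∀ (p q : ℕ) (x : K.K p) (y : K.K q), f (sx k x ⊗ₜ sx k y) = g (sx k x ⊗ₜ sx k y)) :
    f = g := by
  apply TensorProduct.ext
  apply ch_ext
  intro p x
  apply ch_ext
  intro q y
  exact h p q x y

lemma exch_t {V : Type} [AddCommGroup V] [Module k V]
    (P : V →ₗ[k] V) (a b c d : V) :
    exch P ((a ⊗ₜ[k] b) ⊗ₜ[k] (c ⊗ₜ[k] d)) = (a ⊗ₜ[k] c) ⊗ₜ[k] (b ⊗ₜ[k] d) -
      (2 : k) • ((a ⊗ₜ[k] P c) ⊗ₜ[k] (P b ⊗ₜ[k] d)) := by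
  rw [exch, LinearMap.comp_apply, LinearMap.sub_apply, LinearMap.id_apply, LinearMap.smul_apply,
    TensorProduct.map_tmul, TensorProduct.map_tmul, TensorProduct.map_tmul, LinearMap.id_apply,
    LinearMap.id_apply, LinearEquiv.coe_coe, map_sub, map_smul,
    TensorProduct.tensorTensorTensorComm_tmul, TensorProduct.tensorTensorTensorComm_tmul]

lemma lx_exch {V : Type} [AddCommGroup V] [Module k V]
    (P : V →ₗ[k] V) (F : V ⊗[k] V →ₗ[k] V) (x : V →ₗ[k] k) (a b c d : V) (hb : P b = 0) :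
    lx x (TensorProduct.map F F (exch P ((a ⊗ₜ[k] b) ⊗ₜ[k] (c ⊗ₜ[k] d)))) =
      x (F (a ⊗ₜ[k] c)) • F (b ⊗ₜ[k] d) := by
  rw [exch_t, hb, TensorProduct.zero_tmul, TensorProduct.tmul_zero, smul_zero, sub_zero,
    TensorProduct.map_tmul, lx_tmul]

/-- **Tw4**, even. -/
lemma tw4 (e : ∀ p q : ℕ, Ch ℤ ((De p).prod (De q)))
    (m : SSHom (K.prod K) K) (n : ℕ) (hn : Even n) (c : Ch k K) (hc : c ∈ gr k K n)
    (x : Ch k K →ₗ[k] k) (v : K.K 0) (y : Ch k K) :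
    Tw e m x (sx k v ⊗ₜ c) y =
      mu k e m (c ⊗ₜ cap (x ∘ₗ mu k e m ∘ₗ TensorProduct.mk k (Ch k K) (Ch k K) (sx k v)) y) := by
  have key : (lx x ∘ₗ TensorProduct.map (mu k e m) (mu k e m) ∘ₗ exch (od k K) ∘ₗ
      TensorProduct.mk k (Ch k K ⊗[k] Ch k K) (Ch k K ⊗[k] Ch k K) (sx k v ⊗ₜ c)) =
      (mu k e m ∘ₗ TensorProduct.mk k (Ch k K) (Ch k K) c ∘ₗ
        lx (x ∘ₗ mu k e m ∘ₗ TensorProduct.mk k (Ch k K) (Ch k K) (sx k v))) := by
    apply tt_ext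
    intro i j a b
    have hL : (lx x ∘ₗ TensorProduct.map (mu k e m) (mu k e m) ∘ₗ exch (od k K) ∘ₗ
        TensorProduct.mk k (Ch k K ⊗[k] Ch k K) (Ch k K ⊗[k] Ch k K) (sx k v ⊗ₜ c))
          (sx k a ⊗ₜ sx k b) =
        x (mu k e m (sx k v ⊗ₜ sx k a)) • mu k e m (c ⊗ₜ sx k b) :=
      lx_exch (od k K) (mu k e m) x (sx k v) c (sx k a) (sx k b) (od_ev n hn c hc)
    have hR : (mu k e m ∘ₗ TensorProduct.mk k (Ch k K) (Ch k K) c ∘ₗ
        lx (x ∘ₗ mu k e m ∘ₗ TensorProduct.mk k (Ch k K) (Ch k K) (sx k v)))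
          (sx k a ⊗ₜ sx k b) =
        x (mu k e m (sx k v ⊗ₜ sx k a)) • mu k e m (c ⊗ₜ sx k b) := by
      rw [LinearMap.comp_apply, LinearMap.comp_apply, lx_tmul, map_smul,
        map_smul, TensorProduct.mk_apply]
      rfl
    rw [hL, hR]
  exact LinearMap.congr_fun key (dl k K y)

lemma lx_add' {V : Type} [AddCommGroup V] [Module k V] (x x' : V →ₗ[k] k) :
    lx (x + x') = lx x + lx x' := by
  refine TensorProduct.ext' fun a b => ?_
  rw [LinearMap.add_apply, lx_tmul, lx_tmul, lx_tmul, LinearMap.add_apply, add_smul]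

lemma lx_zero' {V : Type} [AddCommGroup V] [Module k V] :
    lx (0 : V →ₗ[k] k) = 0 := by
  refine TensorProduct.ext' fun a b => ?_
  rw [lx_tmul, LinearMap.zero_apply, LinearMap.zero_apply, zero_smul]

lemma cap_add' (x x' : Ch k K →ₗ[k] k) (y : Ch k K) :
    cap (x + x') y = cap x y + cap x' y := by
  unfold cap
  rw [lx_add']
  rfl

lemma cap_zero' (y : Ch k K) : cap (0 : Ch k K →ₗ[k] k) y = 0 := by
  unfold cap
  rw [lx_zero']
  rfl

lemma Tw_add (e : ∀ p q : ℕ, Ch ℤ ((De p).prod (De q))) (m : SSHom (K.prod K) K)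
    (x : Ch k K →ₗ[k] k) (z z' : Ch k K ⊗[k] Ch k K) (y : Ch k K) :
    Tw e m x (z + z') y = Tw e m x z y + Tw e m x z' y := by
  rw [Tw_apply, Tw_apply, Tw_apply, TensorProduct.add_tmul]
  simp only [map_add]

end

end Ev

end HTx
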