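import Pool.Agent.Lib.MP_181146_gt.HP.SpecP
import Mathlib.AlgebraicTopology.FundamentalGroupoid.SimplyConnected

/-!
# Project HT, module `H1`: the first homology of a simply connected space vanishes
-/

set_option autoImplicit false

namespace HTx

open HEp HPx Pool.Agent.Lib.SingHom

section

variable {E : Type} [TopologicalSpace E]

private theorem h1_ind {M : Type} [AddCommGroup M] {f : Ch ℤ (Sing E) →ₗ[ℤ] M}
    {S : Submodule ℤ M} {m : ℕ} (h : ∀ σ : (Sing E).K m, f (sx ℤ σ) ∈ S) {x : Ch ℤ (Sing E)}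
    (hx : x ∈ gr ℤ (Sing E) m) : f x ∈ S := by
  have hle : gr ℤ (Sing E) m ≤ S.comap f := by
    rw [gr, Finsupp.supported_eq_span_single, Submodule.span_le]
    rintro _ ⟨⟨m', σ⟩, hσ, rfl⟩
    have hσ' : m' = m := hσ
    subst hσ'
    exact h σ
  exact hle hx

/-- The coordinates of a face. -/
private theorem h1_smap {n m : ℕ} (a : Fin (n + 1) → Fin (m + 1)) (t : Sx n) (k : Fin (m + 1)) :
    (smap a t) k = ∑ i, t i * (if k = a i then 1 else 0) := by
  rw [smap_eq_aff, aff_apply]
  refine Finset.sum_congr rfl fun i _ => ?_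
  rw [stdSimplex.vertex_coe, Pi.single_apply]

/-- The edge of a continuous map. -/
private noncomputable def es (f : C(ℝ, E)) : (Sing E).K 1 :=
  (⟨fun t : Sx 1 => f (t 1), f.continuous.comp
    ((continuous_apply 1).comp continuous_subtype_val)⟩ : C(Sx 1, E))

private noncomputable def ep {x y : E} (p : Path x y) : C(ℝ, E) := ⟨p.extend, p.continuous_extend⟩

/-- constant simplices are boundaries -/
private theorem h1_const (y : E) {u : Ch ℤ (Sing E)} (hu : u ∈ gr ℤ (Sing E) 1) :
    cmap ℤ (SingMap (ContinuousMap.const E y)) u ∈ LinearMap.range (bd ℤ (Sing E)) := by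
  refine h1_ind (fun σ => ?_) hu
  rw [cmap_sx]
  refine ⟨sx ℤ (K := Sing E) (n := 2) (ContinuousMap.const (Sx 2) y : C(Sx 2, E)), ?_⟩
  rw [bd_sx, Fin.sum_univ_three]
  have e : ∀ i : Fin 3, (Sing E).act i.succAbove (ContinuousMap.const (Sx 2) y : C(Sx 2, E)) =
      (SingMap (ContinuousMap.const E y)).f σ := fun i => rfl
  rw [e, e, e]
  simp

/-- Composition of paths. -/
private theorem h1_trans {x y z : E} (p : Path x y) (q : Path y z) :
    sx ℤ (es (ep q)) - sx ℤ (es (ep (p.trans q))) + sx ℤ (es (ep p)) ∈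
      LinearMap.range (bd ℤ (Sing E)) := by
  let ω : C(Sx 2, E) := ⟨fun t => (p.trans q).extend (t 1 / 2 + t 2),
    (p.trans q).continuous_extend.comp
      ((((continuous_apply 1).comp continuous_subtype_val).div_const 2).add
        ((continuous_apply 2).comp continuous_subtype_val))⟩
  have hsum : ∀ t : Sx 1, t 0 + t 1 = 1 := fun t => by
    have h := stdSimplex.sum_eq_one t
    rwa [Fin.sum_univ_two] at h
  have hnn : ∀ (t : Sx 1) i, 0 ≤ t i := fun t i => stdSimplex.zero_le t i
  have hf0 : (Sing E).act (0 : Fin 3).succAbove ω = es (ep q) := by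
    apply ContinuousMap.ext
    intro t
    change (p.trans q).extend ((smap (0 : Fin 3).succAbove t) 1 / 2 +
      (smap (0 : Fin 3).succAbove t) 2) = q.extend (t 1)
    rw [h1_smap, h1_smap, Fin.sum_univ_two, Fin.sum_univ_two]
    have e1 : ((0 : Fin 3).succAbove (0 : Fin 2)) = 1 := rfl
    have e2 : ((0 : Fin 3).succAbove (1 : Fin 2)) = 2 := rfl
    rw [e1, e2, if_pos rfl, if_neg (by decide), if_neg (by decide), if_pos rfl]
    have h0 := hsum t
    have h1 := hnn t 0
    have h2 := hnn t 1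
    have hmem : (t 0 * 1 + t 1 * 0) / 2 + (t 0 * 0 + t 1 * 1) ∈ Set.Icc (0 : ℝ) 1 :=
      ⟨by linarith, by linarith⟩
    rw [Path.extend_apply _ hmem, Path.trans_apply]
    have hmem2 : t 1 ∈ Set.Icc (0 : ℝ) 1 := ⟨h2, by linarith⟩
    rw [Path.extend_apply _ hmem2]
    split_ifs with h
    · have h3 : t 1 = 0 := by
        change (t 0 * 1 + t 1 * 0) / 2 + (t 0 * 0 + t 1 * 1) ≤ 1 / 2 at h
        linarith
      have e3 : (⟨2 * ((t 0 * 1 + t 1 * 0) / 2 + (t 0 * 0 + t 1 * 1)), by
          constructor <;> linarith⟩ : unitInterval) = 1 := by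
        apply Subtype.ext
        change 2 * ((t 0 * 1 + t 1 * 0) / 2 + (t 0 * 0 + t 1 * 1)) = (1 : ℝ)
        linarith
      have e4 : (⟨t 1, hmem2⟩ : unitInterval) = 0 := Subtype.ext h3
      rw [e4]
      refine Eq.trans (congrArg p e3) ?_
      rw [p.target, q.source]
    · refine congrArg q (Subtype.ext ?_)
      change 2 * ((t 0 * 1 + t 1 * 0) / 2 + (t 0 * 0 + t 1 * 1)) - 1 = t 1
      linarith
  have hf1 : (Sing E).act (1 : Fin 3).succAbove ω = es (ep (p.trans q)) := by
    apply ContinuousMap.ext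
    intro t
    change (p.trans q).extend ((smap (1 : Fin 3).succAbove t) 1 / 2 +
      (smap (1 : Fin 3).succAbove t) 2) = (p.trans q).extend (t 1)
    rw [h1_smap, h1_smap, Fin.sum_univ_two, Fin.sum_univ_two]
    have e1 : ((1 : Fin 3).succAbove (0 : Fin 2)) = 0 := rfl
    have e2 : ((1 : Fin 3).succAbove (1 : Fin 2)) = 2 := rfl
    rw [e1, e2, if_neg (by decide), if_neg (by decide), if_neg (by decide), if_pos rfl]
    refine congrArg _ ?_
    ring
  have hf2 : (Sing E).act (2 : Fin 3).succAbove ω = es (ep p) := by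
    apply ContinuousMap.ext
    intro t
    change (p.trans q).extend ((smap (2 : Fin 3).succAbove t) 1 / 2 +
      (smap (2 : Fin 3).succAbove t) 2) = p.extend (t 1)
    rw [h1_smap, h1_smap, Fin.sum_univ_two, Fin.sum_univ_two]
    have e1 : ((2 : Fin 3).succAbove (0 : Fin 2)) = 0 := rfl
    have e2 : ((2 : Fin 3).succAbove (1 : Fin 2)) = 1 := rfl
    rw [e1, e2, if_neg (by decide), if_pos rfl, if_neg (by decide), if_neg (by decide)]
    have h0 := hsum t
    have h1 := hnn t 0
    have h2 := hnn t 1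
    have hmem : (t 0 * 0 + t 1 * 1) / 2 + (t 0 * 0 + t 1 * 0) ∈ Set.Icc (0 : ℝ) 1 :=
      ⟨by linarith, by linarith⟩
    rw [Path.extend_apply _ hmem, Path.trans_apply]
    have hmem2 : t 1 ∈ Set.Icc (0 : ℝ) 1 := ⟨h2, by linarith⟩
    rw [Path.extend_apply _ hmem2]
    rw [dif_pos (by
      change (t 0 * 0 + t 1 * 1) / 2 + (t 0 * 0 + t 1 * 0) ≤ 1 / 2
      linarith)]
    refine congrArg p (Subtype.ext ?_)
    change 2 * ((t 0 * 0 + t 1 * 1) / 2 + (t 0 * 0 + t 1 * 0)) = t 1
    ring
  refine ⟨sx ℤ (K := Sing E) (n := 2) ω, ?_⟩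
  rw [bd_sx, Fin.sum_univ_three, hf0, hf1, hf2]
  simp [sub_eq_add_neg]

/-- Homotopic paths. -/
private theorem h1_hom (hSHE : S_SHE) {x y : E} {p q : Path x y} (h : p.Homotopic q) :
    sx ℤ (es (ep q)) - sx ℤ (es (ep p)) ∈ LinearMap.range (bd ℤ (Sing E)) := by
  obtain ⟨F⟩ := h
  obtain ⟨B, hB, hBg, hBn⟩ := hSHE ℤ unitInterval E F.toContinuousMap p.toContinuousMap
    q.toContinuousMap (fun t => F.apply_zero t) (fun t => F.apply_one t)
  let ι : C(Sx 1, unitInterval) := ⟨fun t => ⟨t 1, stdSimplex.zero_le t 1, by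
      have h := stdSimplex.sum_eq_one t
      rw [Fin.sum_univ_two] at h
      have h1 := stdSimplex.zero_le t 0
      linarith⟩,
    ((continuous_apply 1).comp continuous_subtype_val).subtype_mk _⟩
  have hι : ∀ {x y : E} (p : Path x y),
      (SingMap p.toContinuousMap).f (n := 1) ι = es (ep p) := by
    intro x y p
    apply ContinuousMap.ext
    intro t
    change p (ι t) = p.extend ((ι t : unitInterval) : ℝ)
    rw [Path.extend_apply _ (ι t).2]
  have e1 := hB (sx ℤ (K := Sing unitInterval) (n := 1) ι)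
  rw [cmap_sx, cmap_sx, hι q, hι p] at e1
  rw [e1]
  refine Submodule.add_mem _ ⟨_, rfl⟩ ?_
  rw [bd_sx, Fin.sum_univ_two]
  have hv : ∀ (a : Fin 1 → Fin 2) (t : Sx 0), (smap a t) 1 = if a 0 = 1 then 1 else 0 := by
    intro a t
    rw [h1_smap, Fin.sum_univ_one]
    have h1 : t 0 = 1 := by
      have := stdSimplex.sum_eq_one t
      rwa [Fin.sum_univ_one] at this
    rw [h1, one_mul]
    by_cases h : a 0 = 1
    · rw [if_pos h, if_pos h.symm]
    · rw [if_neg h, if_neg (fun h' => h h'.symm)]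
  have v0 : (Sing unitInterval).act (0 : Fin 2).succAbove ι = vtx (1 : unitInterval) := by
    apply ContinuousMap.ext
    intro t
    apply Subtype.ext
    change (smap (0 : Fin 2).succAbove t) 1 = 1
    rw [hv, if_pos (by decide)]
  have v1 : (Sing unitInterval).act (1 : Fin 2).succAbove ι = vtx (0 : unitInterval) := by
    apply ContinuousMap.ext
    intro t
    apply Subtype.ext
    change (smap (1 : Fin 2).succAbove t) 1 = 0
    rw [hv, if_neg (by decide)]
  have hc : ∀ (a : unitInterval) (b : E), (∀ s, F (s, a) = b) →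
      B (sx ℤ (vtx a)) ∈ LinearMap.range (bd ℤ (Sing E)) := by
    intro a b hab
    have h1 := hBn (ContinuousMap.const unitInterval a) (ContinuousMap.const E b)
      (fun s _ => hab s) (sx ℤ (vtx a))
    rw [cmap_sx] at h1
    have h2 : (SingMap (ContinuousMap.const unitInterval a)).f (n := 0) (vtx a) = vtx a := rfl
    rw [h2] at h1
    rw [h1]
    exact h1_const b (hBg 0 _ (sx_mem_gr ℤ _))
  rw [v0, v1, map_add, map_smul, map_smul]
  refine Submodule.add_mem _ (Submodule.smul_mem _ _ (hc 1 y fun s => F.target s))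
    (Submodule.smul_mem _ _ (hc 0 x fun s => F.source s))

/-- **H1.** The first homology of a simply connected space vanishes. -/
theorem h1_zero (hSHE : S_SHE) [SimplyConnectedSpace E] {z : Ch ℤ (Sing E)}
    (hz : z ∈ gr ℤ (Sing E) 1) (hbz : bd ℤ (Sing E) z = 0) : ∃ w, bd ℤ (Sing E) w = z := by
  have hne : Nonempty E := inferInstance
  obtain ⟨v⟩ := hne
  let pt : (Sing E).K 0 → E := fun σ => DFunLike.coe (F := C(Sx 0, E)) σ (stdSimplex.vertex 0)
  let γ : ∀ σ : (Sing E).K 0, Path v (pt σ) := fun σ => PathConnectedSpace.somePath v (pt σ)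
  let L : Ch ℤ (Sing E) →ₗ[ℤ] Ch ℤ (Sing E) := Finsupp.linearCombination ℤ
    (fun x : Σ n, (Sing E).K n => match x with
      | ⟨0, σ⟩ => sx ℤ (es (ep (γ σ)))
      | ⟨_ + 1, _⟩ => 0)
  have hL : ∀ σ : (Sing E).K 0, L (sx ℤ σ) = sx ℤ (es (ep (γ σ))) := by
    intro σ
    change Finsupp.linearCombination ℤ _ (Finsupp.single _ 1) = _
    rw [Finsupp.linearCombination_single, one_smul]
  have hmain : ∀ τ : (Sing E).K 1,
      (LinearMap.id - L ∘ₗ bd ℤ (Sing E) : HEp.Ch ℤ (Sing E) →ₗ[ℤ] HEp.Ch ℤ (Sing E))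
        (sx ℤ τ) ∈ LinearMap.range (bd ℤ (Sing E)) := by
    intro τ
    let τ' : C(Sx 1, E) := τ
    have hP : ∀ t : unitInterval, (fun i : Fin 2 => if i = 0 then 1 - (t : ℝ) else (t : ℝ)) ∈
        stdSimplex ℝ (Fin 2) := by
      intro t
      refine ⟨fun i => ?_, ?_⟩
      · dsimp only
        split_ifs
        · exact sub_nonneg.2 t.2.2
        · exact t.2.1
      · rw [Fin.sum_univ_two, if_pos rfl, if_neg (by decide)]
        ring
    have hcont : Continuous fun t : unitInterval =>
        (⟨fun i : Fin 2 => if i = 0 then 1 - (t : ℝ) else (t : ℝ), hP t⟩ : Sx 1) := by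
      refine Continuous.subtype_mk (continuous_pi fun i => ?_) _
      by_cases hi : i = 0
      · simp only [hi, if_true]
        exact continuous_const.sub continuous_subtype_val
      · simp only [hi, if_false]
        exact continuous_subtype_val
    have hv : ∀ (a : Fin 1 → Fin 2) (k : Fin 2),
        (smap a (stdSimplex.vertex 0 : Sx 0)) k = if k = a 0 then 1 else 0 := by
      intro a k
      rw [h1_smap, Fin.sum_univ_one, stdSimplex.vertex_coe, Pi.single_eq_same, one_mul]
    let P : Path (pt ((Sing E).act (1 : Fin 2).succAbove τ))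
        (pt ((Sing E).act (0 : Fin 2).succAbove τ)) :=
      { toFun := fun t => τ' ⟨fun i : Fin 2 => if i = 0 then 1 - (t : ℝ) else (t : ℝ), hP t⟩
        continuous_toFun := τ'.continuous.comp hcont
        source' := by
          change τ' _ = τ' (smap (1 : Fin 2).succAbove (stdSimplex.vertex 0 : Sx 0))
          refine congrArg τ' (stdSimplex.ext (funext fun i => ?_))
          rw [hv]
          have e1 : ((1 : Fin 2).succAbove (0 : Fin 1)) = 0 := rfl
          rw [e1]
          change (if i = 0 then 1 - ((0 : unitInterval) : ℝ) else ((0 : unitInterval) : ℝ)) = _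
          simp
        target' := by
          change τ' _ = τ' (smap (0 : Fin 2).succAbove (stdSimplex.vertex 0 : Sx 0))
          refine congrArg τ' (stdSimplex.ext (funext fun i => ?_))
          rw [hv]
          have e1 : ((0 : Fin 2).succAbove (0 : Fin 1)) = 1 := rfl
          rw [e1]
          change (if i = 0 then 1 - ((1 : unitInterval) : ℝ) else ((1 : unitInterval) : ℝ)) = _
          fin_cases i <;> simp }
    have hτ : es (ep P) = τ := by
      apply ContinuousMap.ext
      intro t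
      change P.extend (t 1) = τ' t
      have h0 : t 0 + t 1 = 1 := by
        have h := stdSimplex.sum_eq_one t
        rwa [Fin.sum_univ_two] at h
      have h1 := stdSimplex.zero_le t 0
      have h2 := stdSimplex.zero_le t 1
      have hmem : t 1 ∈ Set.Icc (0 : ℝ) 1 := ⟨h2, by linarith⟩
      rw [Path.extend_apply _ hmem]
      change τ' _ = τ' t
      refine congrArg τ' (stdSimplex.ext (funext fun i => ?_))
      change (if i = 0 then 1 - t 1 else t 1) = t i
      fin_cases i
      · change 1 - t 1 = t 0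
        linarith
      · rfl
    have h1 := h1_trans (γ ((Sing E).act (1 : Fin 2).succAbove τ)) P
    have h2 := h1_hom hSHE (SimplyConnectedSpace.paths_homotopic
      (γ ((Sing E).act (0 : Fin 2).succAbove τ))
      ((γ ((Sing E).act (1 : Fin 2).succAbove τ)).trans P))
    rw [hτ] at h1
    have h3 := Submodule.add_mem _ h1 h2
    rw [LinearMap.sub_apply, LinearMap.id_apply, LinearMap.comp_apply, bd_sx, Fin.sum_univ_two,
      map_add, map_smul, map_smul, hL, hL]
    have e4 : sx ℤ τ - ((-1 : ℤ) ^ ((0 : Fin 2) : ℕ) •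
        sx ℤ (es (ep (γ ((Sing E).act (0 : Fin 2).succAbove τ)))) +
        (-1 : ℤ) ^ ((1 : Fin 2) : ℕ) •
        sx ℤ (es (ep (γ ((Sing E).act (1 : Fin 2).succAbove τ))))) =
        sx ℤ τ - sx ℤ (es (ep ((γ ((Sing E).act (1 : Fin 2).succAbove τ)).trans P))) +
          sx ℤ (es (ep (γ ((Sing E).act (1 : Fin 2).succAbove τ)))) +
        (sx ℤ (es (ep ((γ ((Sing E).act (1 : Fin 2).succAbove τ)).trans P))) -
          sx ℤ (es (ep (γ ((Sing E).act (0 : Fin 2).succAbove τ))))) := by
      have e5 : (-1 : ℤ) ^ ((0 : Fin 2) : ℕ) = 1 := rfl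
      have e6 : (-1 : ℤ) ^ ((1 : Fin 2) : ℕ) = -1 := rfl
      rw [e5, e6, one_smul, neg_one_smul]
      abel
    rw [e4]
    exact h3
  have h := h1_ind hmain hz
  rw [LinearMap.sub_apply, LinearMap.id_apply, LinearMap.comp_apply, hbz, map_zero, sub_zero] at h
  exact h

end

end HTx
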