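import Pool.Agent.Lib.MP_181146_gt.HE.SlimE

/-!
# Project HT: short definitions for the statement of the result

`AcyS E n`: the singular homology group `H_n(E)` vanishes.  `LowInf E`: the lowest nonvanishing group
`H_n(E)`, `n > 0`, is infinite.
-/

set_option autoImplicit false

namespace HSp

/-- `H_n(E) = 0`: every singular cycle of degree `n` of `E` is a boundary. -/
def AcyS (E : Type) [TopologicalSpace E] (n : ℕ) : Prop :=
  ∀ z : SI E n, IsCyS E n z → ∃ w, bdS E n w = z

/-- The lowest nonvanishing homology group `H_n(E)`, `n > 0`, if there is one, contains an element of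
infinite order: there is a cycle of degree `n` no nonzero multiple of which is a boundary. -/
def LowInf (E : Type) [TopologicalSpace E] : Prop :=
  ∀ n : ℕ, 0 < n → (∀ i, 0 < i → i < n → AcyS E i) → ¬ AcyS E n →
    ∃ z : SI E n, IsCyS E n z ∧ ∀ c : ℤ, c ≠ 0 → ∀ w, bdS E n w ≠ c • z

end HSp
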