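import Pool.Agent.Lib.MP_181146_gt.HT.SpecT
import Pool.Agent.Lib.MP_181146_gt.HS.SpecB
import Pool.Agent.Lib.MP_181146_gt.HS.SlimT
import Pool.Agent.Lib.MP_181146_gt.HS.Uniq

/-!
# Project HT, module `Top`: all finite groups of deck transformations
-/

set_option autoImplicit false

namespace HTx

open HSp

/-- **Top.** -/
theorem sTop (hTopX : S_TopX) (hMainB : HSp.S_MainB) (hTN : HSp.S_TN) : S_Top := by
  intro X E _ _ _ _ _ p hp e μ hμ hfin C K hC heq n hE z hz hind
  by_cases hG : ∀ q : ℕ, q.Prime → IsPGroup q (Deck p) → ¬ IsCyclic (Deck p)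
  · obtain ⟨a, ha⟩ := hTopX X E p hp e μ hμ hfin hG C K hC heq n hE z hz hind
    exact ⟨a, a, fun _ => rfl, ha⟩
  · push Not at hG
    obtain ⟨q, hq, hpq, hc⟩ := hG
    have : Fact q.Prime := ⟨hq⟩
    obtain ⟨k, hk⟩ := IsPGroup.iff_card.1 hpq
    obtain ⟨a, b, hab, h⟩ := hMainB E (Deck p) (hTN X E p hp e μ hμ) hc hfin C.cx hC.fin hC.proj K
      hC.bdd (C.cx_equiv heq) (by
        intro q1 q2 hq1 hqn1 hq2 hqn2
        have h1 : q1 = q := by
          rw [hk] at hqn1
          exact (Nat.prime_dvd_prime_iff_eq hq1 hq).1 (hq1.dvd_of_dvd_pow hqn1)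
        have h2 : q2 = q := by
          rw [hk] at hqn2
          exact (Nat.prime_dvd_prime_iff_eq hq2 hq).1 (hq2.dvd_of_dvd_pow hqn2)
        intro b b' hB hB'
        subst h1
        subst h2
        have : ∀ i, Module.Finite (MonoidAlgebra ℤ (Deck p)) (C.X i) := hC.fin
        have e1 : (fun i => (C.cx.d (i + 1) i).hom) = C.dL := funext fun i => C.cx_d i
        have hB1 : IsBettiP (Deck p) q2 C.X C.dL b := e1 ▸ hB
        have hB2 : IsBettiP (Deck p) q2 C.X C.dL b' := e1 ▸ hB'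
        rw [bettiP_unique (Deck p) q2 hq2 C.X C.dL b b' hB1 hB2])
    exact ⟨a, b, hab, h⟩

end HTx
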