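import Pool.Agent.Lib.MP_181146_gt.HT.SlimL
import Pool.Agent.Lib.MP_181146_gt.HT.Acy
import Pool.Agent.Lib.MP_181146_gt.HT.H1
import Pool.Agent.Lib.MP_181146_gt.HT.Cmp
import Pool.Agent.Lib.MP_181146_gt.HT.Top

/-!
# Project HT, module `TopL`: all finite groups, the lowest nonvanishing homology group is infinite
-/

set_option autoImplicit false

namespace HTx

open HEp HPx HSp Cmp

/-- **TopL.** `E` simply connected, the lowest nonvanishing homology group of `E` (if there is one) is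
infinite. -/
def S_TopL : Prop :=
  ∀ (X E : Type) [TopologicalSpace X] [TopologicalSpace E] [PathConnectedSpace X]
    [LocallyPathConnectedSpace X] [SimplyConnectedSpace E] (p : E → X) (_hp : IsCoveringMap p)
    (e : X) (μ : C(X × X, X)) (_hμ : HSp.IsHMul e μ) (_hfin : Finite (HSp.Deck p))
    (_hL : HSp.LowInf E) (C : HSp.Cpl (HSp.GR (HSp.Deck p))) (K : ℕ) (_hC : C.IsPerf K)
    (_heq : HSp.EqvSing (HSp.Deck p) C),
    ∃ a b : ℕ, (1 < Nat.card (HSp.Deck p) → a = b) ∧ C.StEq K a b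

/-- `H_1(E) = 0` for simply connected `E`, in Mathlib's singular chain complex. -/
theorem acyS_one (hSHE : S_SHE) (E : Type) [TopologicalSpace E] [SimplyConnectedSpace E] :
    ∀ x : SI E 1, bdS E 0 x = 0 → ∃ y, bdS E 1 y = x := by
  intro x hx
  obtain ⟨x', hx', hxx⟩ : ∃ x' : (HSp.SC E).X 1, ((HSp.SC E).d 1 0).hom x' = 0 ∧ x' = x :=
    ⟨x, hx, rfl⟩
  have h1 : bd ℤ (Sing E) (inc 1 (ci 1 x')) = 0 := by
    rw [bd_inc_succ, ← ci_d, hx', map_zero, map_zero]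
  obtain ⟨w, hw⟩ := h1_zero hSHE (inc_mem 1 (ci 1 x')) h1
  have h2 : ((HSp.SC E).d 2 1).hom (cm 2 (prj 2 w)) = x' := by
    rw [cm_d, ← prj_bd, hw, prj_inc, cm_ci]
  exact ⟨cm 2 (prj 2 w), h2.trans hxx⟩

/-- If the homology of `E` vanishes in positive degrees then the group of deck transformations is
trivial. -/
theorem topAcy (hFunH : S_FunH) (hTowU : S_TowU) (hLTEx : S_LTEx)
    (hLkAc : HPx.S_LkAc) (hAcEx : HPx.S_AcEx) (hDCo : HEp.S_DCo) (hTN : HSp.S_TN)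
    (X E : Type) [TopologicalSpace X] [TopologicalSpace E] [PathConnectedSpace X]
    [PathConnectedSpace E] (p : E → X) (hp : IsCoveringMap p)
    (e : X) (μ : C(X × X, X)) (hμ : HSp.IsHMul e μ) (hfin : Finite (HSp.Deck p))
    (C : HSp.Cpl (HSp.GR (HSp.Deck p))) (K : ℕ) (hC : C.IsPerf K)
    (heq : HSp.EqvSing (HSp.Deck p) C)
    (hE : ∀ i, ∀ x : HSp.SI E (i + 1), HSp.bdS E i x = 0 → ∃ y, HSp.bdS E (i + 1) y = x) :
    ∀ g : HSp.Deck p, g = 1 := by
  have hne : Nonempty E := inferInstance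
  obtain ⟨v⟩ := hne
  have hN : HSp.PropN (HSp.Deck p) := hTN X E p hp e μ hμ
  have hcomm := hDCo E (HSp.Deck p) hN
  obtain ⟨f, g, s', t', ha, fγ, gγ, sγ, tγ, hf, hg, ⟨hs0, hs1⟩, ⟨ht0, ht1⟩⟩ := heq
  let cg : CommGroup (HSp.Deck p) :=
    { (inferInstance : Group (HSp.Deck p)) with mul_comm := hcomm }
  have hfi : ∀ i, Module.Finite (ZG (HSp.Deck p)) (C.X i) := fun i => (hC i).1
  have hpr : ∀ i, Module.Projective (ZG (HSp.Deck p)) (C.X i) := fun i => (hC i).2.1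
  let act : HSp.Deck p → C(E, E) := fun g => (g.1 : C(E, E))
  obtain ⟨ε, εg, εd, ⟨Λ⟩⟩ := hLTEx E (HSp.Deck p) act C.X C.dL C.d_d
    (fun i => AddMonoidHom.mk' (f i) (ha i).1)
    (fun i => AddMonoidHom.mk' (g i) (ha i).2.1) (fun i => AddMonoidHom.mk' (s' i) (ha i).2.2.1)
    (fun i => AddMonoidHom.mk' (t' i) (ha i).2.2.2) (fun i x => (hf i x).symm)
    (fun i x => (hg i x).symm) (fun x => (hs0 x).symm) (fun i x => (hs1 i x).symm)
    (fun x => (ht0 x).symm) (fun i x => (ht1 i x).symm) (fun γ i x => fγ i γ x)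
    (fun γ i x => gγ i γ x) (fun γ i x => sγ i γ x) (fun γ i x => tγ i γ x)
  have hAc : AcE E (vtx v) (2 * K + 1) := hAcEx E v (2 * K + 1) fun i _ => hE i
  have hX : (mkAX C.X C.dL C.d_d ε εg εd).Ac (2 * K + 1) :=
    hLkAc (HSp.Deck p) _ E act Λ.toLk (vtx v) (2 * K + 1) hAc
  exact noAcy hFunH hTowU (HSp.Deck p) (mkAX C.X C.dL C.d_d ε εg εd) K
    (fun i hi => (hC i).2.2 hi) hX

/-- **TopL.** -/
theorem sTopL (hTop : S_Top) (hSHE : S_SHE) (hFunH : S_FunH) (hTowU : S_TowU) (hLTEx : S_LTEx)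
    (hLkAc : HPx.S_LkAc) (hAcEx : HPx.S_AcEx) (hDCo : HEp.S_DCo) (hTN : HSp.S_TN)
    (hMainB : HSp.S_MainB) : S_TopL := by
  intro X E _ _ _ _ _ p hp e μ hμ hfin hL C K hC heq
  by_cases hall : ∀ i, ∀ x : HSp.SI E (i + 1), HSp.bdS E i x = 0 → ∃ y, HSp.bdS E (i + 1) y = x
  · -- the group is trivial
    have htr := topAcy hFunH hTowU hLTEx hLkAc hAcEx hDCo hTN X E p hp e μ hμ hfin C K hC heq hall
    have hsub : Subsingleton (Deck p) := ⟨fun a b => by rw [htr a, htr b]⟩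
    have hcard : Nat.card (Deck p) = 1 := Nat.card_unique
    have hc : IsCyclic (Deck p) := isCyclic_of_subsingleton
    obtain ⟨a, b, hab, h⟩ := hMainB E (Deck p) (hTN X E p hp e μ hμ) hc hfin C.cx hC.fin hC.proj K
      hC.bdd (C.cx_equiv heq) (by
        intro q1 q2 hq1 hqn1 hq2 hqn2
        rw [hcard] at hqn1
        exact absurd (Nat.dvd_one.1 hqn1) hq1.one_lt.ne')
    exact ⟨a, b, hab, h⟩
  · -- the lowest nonvanishing group
    have hex : ∃ n, ¬ ∀ x : HSp.SI E (n + 1), HSp.bdS E n x = 0 →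
        ∃ y, HSp.bdS E (n + 1) y = x := not_forall.1 hall
    classical
    obtain ⟨n, hn, hmin⟩ : ∃ n, (¬ ∀ x : HSp.SI E (n + 1), HSp.bdS E n x = 0 →
        ∃ y, HSp.bdS E (n + 1) y = x) ∧ ∀ i, i < n → ∀ x : HSp.SI E (i + 1),
        HSp.bdS E i x = 0 → ∃ y, HSp.bdS E (i + 1) y = x :=
      ⟨Nat.find hex, Nat.find_spec hex, fun i hi => not_not.1 (Nat.find_min hex hi)⟩
    cases n with
    | zero => exact absurd (acyS_one hSHE E) hn
    | succ n =>
      obtain ⟨z, hz, hind⟩ := hL (n + 2) (Nat.succ_pos _) (by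
        intro i hi0 hi
        obtain ⟨i, rfl⟩ := Nat.exists_eq_succ_of_ne_zero hi0.ne'
        exact hmin i (by omega)) hn
      exact hTop X E p hp e μ hμ hfin C K hC heq n (fun i hi => hmin i hi) z hz (by
        rintro c ⟨w, hw⟩
        by_contra hc
        exact hind c hc w hw)

end HTx
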